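import Pool.Agent.H83.AR.Targets
import Pool.Agent.H54.LS.AVG
import Pool.Agent.H57.LS.PC1

/-! Module PA: back from the plane, `L^p` norms with weights. -/

set_option autoImplicit false

namespace Pool.Agent.H42.BR

open MeasureTheory Set FourierTransform
open Pool.Agent.H83.AR Pool.Agent.H93.AR Pool.Agent.H83.LS Pool.Agent.H54.LS Pool.Agent.H14.LS
open scoped ENNReal NNReal

/-- Jensen with a weight -/
theorem jensen_w {α : Type*} [MeasurableSpace α] (μ : Measure α) (b J : α → ℝ≥0∞)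
    (hb : Measurable b) (hJ : Measurable J) (p : ℝ) (hp : 1 ≤ p) :
    (∫⁻ y, b y * J y ∂μ) ^ p ≤ (∫⁻ y, b y ∂μ) ^ (p - 1) * ∫⁻ y, b y * J y ^ p ∂μ := by
  rcases hp.eq_or_lt with h | h
  · subst h
    simp only [ENNReal.rpow_one, sub_self, ENNReal.rpow_zero, one_mul]
    exact le_rfl
  · have hpq := Real.HolderConjugate.conjExponent h
    set q := p.conjExponent with hq
    have hp0 : 0 < p := by linarith
    have hq0 : 0 < q := hpq.symm.pos
    have hpp : p / q = p - 1 := by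
      rw [hq, Real.conjExponent]
      field_simp
    have h2 := ENNReal.lintegral_mul_le_Lp_mul_Lq μ hpq.symm
      (f := fun y => b y ^ (1 / q)) (g := fun y => b y ^ (1 / p) * J y)
      (hb.pow_const _).aemeasurable (((hb.pow_const _).mul hJ).aemeasurable)
    have h3 : ∀ y, ((fun y => b y ^ (1 / q)) * (fun y => b y ^ (1 / p) * J y)) y = b y * J y := by
      intro y
      simp only [Pi.mul_apply]
      rw [← mul_assoc, ← ENNReal.rpow_add_of_nonneg _ _ (by positivity) (by positivity)]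
      have : 1 / q + 1 / p = 1 := by
        have := hpq.inv_add_inv_eq_one
        rw [one_div, one_div, add_comm]
        exact this
      rw [this, ENNReal.rpow_one]
    have h4 : ∀ y, (b y ^ (1 / q)) ^ q = b y := by
      intro y
      rw [← ENNReal.rpow_mul, one_div, inv_mul_cancel₀ hq0.ne', ENNReal.rpow_one]
    have h5 : ∀ y, (b y ^ (1 / p) * J y) ^ p = b y * J y ^ p := by
      intro y
      rw [ENNReal.mul_rpow_of_nonneg _ _ hp0.le, ← ENNReal.rpow_mul, one_div,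
        inv_mul_cancel₀ hp0.ne', ENNReal.rpow_one]
    simp_rw [h3, h4, h5] at h2
    calc (∫⁻ y, b y * J y ∂μ) ^ p
        ≤ ((∫⁻ y, b y ∂μ) ^ (1 / q) * (∫⁻ y, b y * J y ^ p ∂μ) ^ (1 / p)) ^ p :=
          ENNReal.rpow_le_rpow h2 hp0.le
      _ = _ := by
        rw [ENNReal.mul_rpow_of_nonneg _ _ hp0.le, ← ENNReal.rpow_mul, ← ENNReal.rpow_mul,
          one_div, one_div, inv_mul_cancel₀ hp0.ne', ENNReal.rpow_one, inv_mul_eq_div, hpp]

/-- cylindrical coordinates -/
theorem lint_cyl (n : ℕ) (hn : 1 ≤ n) (h : EE (n + 1) → ℝ≥0∞) (hh : Measurable h) :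
    ∫⁻ x, h x = ∫⁻ w : Sp n, (∫⁻ z : ℝ, ∫⁻ r in Ioi (0 : ℝ),
      ENNReal.ofReal (r ^ (n - 1)) * h (jo (r • (w : EE n)) z)) ∂(sg n) := by
  have hcm := (mp_cyl n hn).measurable
  have hm2 : Measurable fun q : Sp n × (Ioi (0 : ℝ) × ℝ) =>
      h (jo ((q.2.1 : ℝ) • (q.1 : EE n)) q.2.2) := hh.comp hcm
  rw [← (mp_cyl n hn).lintegral_comp hh, lintegral_prod _ hm2.aemeasurable]
  refine lintegral_congr fun w => ?_
  have hm3 : Measurable fun q : Ioi (0 : ℝ) × ℝ => h (jo ((q.1 : ℝ) • (w : EE n)) q.2) :=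
    hm2.comp measurable_prodMk_left
  rw [lintegral_prod_symm _ hm3.aemeasurable]
  refine lintegral_congr fun z => ?_
  have hm1 : Measurable fun t : Ioi (0 : ℝ) => ENNReal.ofReal (t.1 ^ (n - 1)) :=
    ENNReal.measurable_ofReal.comp (measurable_subtype_coe.pow_const _)
  have hm4 : Measurable fun t : Ioi (0 : ℝ) => h (jo ((t : ℝ) • (w : EE n)) z) :=
    hm3.comp measurable_prodMk_right
  show ∫⁻ t : Ioi (0 : ℝ), h (jo ((t : ℝ) • (w : EE n)) z) ∂(Measure.volumeIoiPow (n - 1)) = _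
  rw [Measure.volumeIoiPow, lintegral_withDensity_eq_lintegral_mul _ hm1 hm4]
  exact lintegral_subtype_comap measurableSet_Ioi
    (fun t : ℝ => ENNReal.ofReal (t ^ (n - 1)) * h (jo (t • (w : EE n)) z))

/-! ### measurability -/

theorem meas_eta0 : Measurable eta0 := by
  unfold eta0
  exact (Real.smoothTransition.continuous.comp (by fun_prop)).measurable

theorem meas_chi : Measurable chi := by
  unfold chi
  exact meas_eta0.sub (meas_eta0.comp (by fun_prop))

theorem meas_e : Measurable e := by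
  have : Continuous e := by
    unfold e
    fun_prop
  exact this.measurable

theorem meas_bump (n : ℕ) (L : ℝ) : Measurable (bump n L) := by
  unfold bump
  exact measurable_const.mul (meas_eta0.comp (by fun_prop))

theorem meas_zk (n : ℕ) (L : ℝ) : Measurable fun q : EE n × EE n => zk n L q.1 q.2 := by
  have h1 : StronglyMeasurable (Function.uncurry fun (q : EE n × EE n) (t : ℝ) =>
      bump n L (t • q.2 - q.1) * t ^ (n - 1)) := by
    apply Measurable.stronglyMeasurable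
    refine Measurable.mul ?_ (measurable_snd.pow_const _)
    exact (meas_bump n L).comp
      (f := fun r : (EE n × EE n) × ℝ => r.2 • r.1.2 - r.1.1) (by fun_prop)
  exact (StronglyMeasurable.integral_prod_right (ν := volume.restrict (Ioi (0 : ℝ))) h1).measurable

theorem meas_AL {n : ℕ} (L : ℝ) (f : EE (n + 1) → ℂ) (hf : Measurable f) :
    Measurable (AL L f) := by
  have h1 : StronglyMeasurable (Function.uncurry fun (x : EE (n + 1)) (w : Sp n) =>
      ((zk n L ((hor x)⁻¹ • pr x) (w : EE n) : ℝ) : ℂ) *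
        f (jo (hor x • (w : EE n)) (x (Fin.last n)))) := by
    apply Measurable.stronglyMeasurable
    refine Measurable.mul ?_ ?_
    · refine Complex.measurable_ofReal.comp ?_
      refine (meas_zk n L).comp
        (f := fun q : EE (n + 1) × Sp n => ((hor q.1)⁻¹ • pr q.1, (q.2 : EE n))) ?_
      refine Measurable.prodMk ?_ (measurable_subtype_coe.comp measurable_snd)
      exact ((continuous_hor.measurable.comp measurable_fst).inv).smul
        (continuous_pr.measurable.comp measurable_fst)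
    · exact hf.comp (measurable_rotmap n)
  exact (StronglyMeasurable.integral_prod_right (ν := sg n) h1).measurable

theorem meas_F {d : ℕ} (g : EE d → ℂ) (hg : Measurable g) : Measurable (𝓕 g) := by
  have h0 : (𝓕 g) = fun w => ∫ v, e (-(inner ℝ v w)) * g v := by
    funext w
    rw [Real.fourier_eq']
    refine integral_congr_ae (ae_of_all _ fun v => ?_)
    simp only [e, smul_eq_mul]
    congr 2
    push_cast
    ring
  rw [h0]
  have h1 : StronglyMeasurable (Function.uncurry fun (w v : EE d) =>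
      e (-(inner ℝ v w)) * g v) := by
    apply Measurable.stronglyMeasurable
    refine Measurable.mul ?_ (hg.comp measurable_snd)
    exact meas_e.comp (f := fun q : EE d × EE d => -(inner ℝ q.2 q.1)) (by fun_prop)
  exact (StronglyMeasurable.integral_prod_right (ν := volume) h1).measurable

theorem meas_mj (n : ℕ) (lam Lam t : ℝ) : Measurable (mj n lam Lam t) := by
  unfold mj
  refine Measurable.mul (meas_e.comp (by fun_prop)) ?_
  refine Complex.measurable_ofReal.comp ?_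
  exact (meas_chi.comp (by fun_prop)).mul
    (meas_chi.comp ((continuous_hor.measurable).div_const _))

theorem meas_MM {d : ℕ} (m g : EE d → ℂ) (hm : Measurable m) (hg : Measurable g) :
    Measurable (MM m g) := by
  have h1 : StronglyMeasurable (Function.uncurry fun (x ξ : EE d) =>
      e (inner ℝ x ξ) * (m ξ * 𝓕 g ξ)) := by
    apply Measurable.stronglyMeasurable
    refine Measurable.mul ?_ ((hm.comp measurable_snd).mul ((meas_F g hg).comp measurable_snd))
    exact meas_e.comp (f := fun q : EE d × EE d => inner ℝ q.1 q.2) (by fun_prop)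
  exact (StronglyMeasurable.integral_prod_right (ν := volume) h1).measurable

/-- the function integrated in the plane -/
noncomputable def VV (n : ℕ) (L lam Lam t : ℝ) (f : EE (n + 1) → ℂ) (v : Sp n) (x : ℝ × ℝ) :
    ℝ≥0∞ := ‖cv (KK t lam Lam) (GT n L Lam f v) x‖ₑ

/-- the weighted line integrals -/
noncomputable def JJ (n : ℕ) (L lam Lam t : ℝ) (f : EE (n + 1) → ℂ) (v : Sp n) (r z : ℝ) :
    ℝ≥0∞ := ∫⁻ x₁ : ℝ, ENNReal.ofReal
      (Lam * (((1 + |Lam * x₁ - Lam * r|) ^ 4)⁻¹ + ((1 + |Lam * x₁ + Lam * r|) ^ 4)⁻¹)) *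
      VV n L lam Lam t f v (x₁, z)

theorem meas_VV (n : ℕ) (L lam Lam t : ℝ) (f : EE (n + 1) → ℂ)
    (hG : Measurable (fun q : Sp n × (ℝ × ℝ) => GT n L Lam f q.1 q.2)) :
    Measurable fun q : Sp n × (ℝ × ℝ) => VV n L lam Lam t f q.1 q.2 := by
  unfold VV cv
  have h1 : StronglyMeasurable (Function.uncurry fun (q : Sp n × (ℝ × ℝ)) (y : ℝ × ℝ) =>
      KK t lam Lam (q.2 - y) * GT n L Lam f q.1 y) := by
    apply Measurable.stronglyMeasurable
    refine Measurable.mul ?_ ?_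
    · exact (Pool.Agent.H57.LS.measurable_KK lam Lam).comp
        (f := fun r : (Sp n × (ℝ × ℝ)) × (ℝ × ℝ) => (t, r.1.2 - r.2)) (by fun_prop)
    · exact hG.comp (f := fun r : (Sp n × (ℝ × ℝ)) × (ℝ × ℝ) => (r.1.1, r.2)) (by fun_prop)
  exact (StronglyMeasurable.integral_prod_right (ν := volume) h1).measurable.enorm

theorem meas_JJ (n : ℕ) (L lam Lam t : ℝ) (f : EE (n + 1) → ℂ)
    (hG : Measurable (fun q : Sp n × (ℝ × ℝ) => GT n L Lam f q.1 q.2)) :
    Measurable fun q : Sp n × (ℝ × ℝ) => JJ n L lam Lam t f q.1 q.2.2 q.2.1 := by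
  unfold JJ
  have h1 : Measurable (Function.uncurry fun (q : Sp n × (ℝ × ℝ)) (x₁ : ℝ) => ENNReal.ofReal
      (Lam * (((1 + |Lam * x₁ - Lam * q.2.2|) ^ 4)⁻¹ + ((1 + |Lam * x₁ + Lam * q.2.2|) ^ 4)⁻¹)) *
      VV n L lam Lam t f q.1 (x₁, q.2.1)) := by
    have h2 : Measurable fun q : (Sp n × (ℝ × ℝ)) × ℝ => ENNReal.ofReal
        (Lam * (((1 + |Lam * q.2 - Lam * q.1.2.2|) ^ 4)⁻¹ +
          ((1 + |Lam * q.2 + Lam * q.1.2.2|) ^ 4)⁻¹)) := by
      refine ENNReal.measurable_ofReal.comp (f := fun q : (Sp n × (ℝ × ℝ)) × ℝ =>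
        (Lam * (((1 + |Lam * q.2 - Lam * q.1.2.2|) ^ 4)⁻¹ +
          ((1 + |Lam * q.2 + Lam * q.1.2.2|) ^ 4)⁻¹))) ?_
      fun_prop
    refine Measurable.mul h2 ?_
    · exact (meas_VV n L lam Lam t f hG).comp
        (f := fun r : (Sp n × (ℝ × ℝ)) × ℝ => (r.1.1, (r.2, r.1.2.1))) (by fun_prop)
  exact h1.lintegral_prod_right'

theorem bz_symm (n : ℕ) (L : ℝ) (v w : EE n) : bz n L v w = bz n L w v := by
  unfold bz
  rw [norm_sub_rev v w, add_comm v w]

theorem bz_nonneg (n : ℕ) (L : ℝ) (hL : 0 ≤ L) (v w : EE n) : 0 ≤ bz n L v w := by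
  unfold bz
  positivity

theorem meas_bz (n : ℕ) (L : ℝ) : Measurable fun q : Sp n × Sp n =>
    ENNReal.ofReal (bz n L (q.1 : EE n) (q.2 : EE n)) := by
  refine ENNReal.measurable_ofReal.comp (f := fun q : Sp n × Sp n =>
    bz n L (q.1 : EE n) (q.2 : EE n)) ?_
  unfold bz
  have h1 : Measurable fun q : Sp n × Sp n => ‖(q.1 : EE n) - (q.2 : EE n)‖ := by
    have : Continuous fun q : Sp n × Sp n => ‖(q.1 : EE n) - (q.2 : EE n)‖ := by fun_prop
    exact this.measurable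
  have h2 : Measurable fun q : Sp n × Sp n => ‖(q.1 : EE n) + (q.2 : EE n)‖ := by
    have : Continuous fun q : Sp n × Sp n => ‖(q.1 : EE n) + (q.2 : EE n)‖ := by fun_prop
    exact this.measurable
  refine measurable_const.mul (Measurable.add ?_ ?_)
  · exact ((measurable_const.add (measurable_const.mul h1)).pow_const _).inv
  · exact ((measurable_const.add (measurable_const.mul h2)).pow_const _).inv

/-- the pointwise bound -/
theorem ptw (hRO : T_RO) (n : ℕ) (p C₁ C₂ : ℝ) (hn : 2 ≤ n) (hp : 1 ≤ p) (hC₁ : 0 ≤ C₁)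
    (hC₂ : 0 ≤ C₂)
    (hKW : ∀ (L Lam x r : ℝ) (v w : Sp n), 1 ≤ L → 0 < Lam → L ^ 2 ≤ Lam * r →
      ‖((Lam : ℝ) : ℂ) * kz n L (fun s => ((chis s : ℝ) : ℂ)) (Lam * x) (Lam * r) v w‖ ≤
      C₂ * Lam * (((1 + |Lam * x - Lam * r|) ^ 4)⁻¹ + ((1 + |Lam * x + Lam * r|) ^ 4)⁻¹) *
        bz n L v w)
    (hBZ : ∀ (L : ℝ) (v : Sp n), 1 ≤ L →
      ∫⁻ w : Sp n, ENNReal.ofReal (bz n L v w) ∂(sg n) ≤ ENNReal.ofReal C₁)
    (L lam Lam t B : ℝ) (f : EE (n + 1) → ℂ) (hL : 1 ≤ L) (hlam : 0 < lam) (hLam : 0 < Lam)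
    (hf : BCd B f) (hfs : ∀ x, f x ≠ 0 → L ^ 2 ≤ Lam * hor x)
    (hG : Measurable (fun q : Sp n × (ℝ × ℝ) => GT n L Lam f q.1 q.2))
    (w : Sp n) (r z : ℝ) (hr : 0 < r) (hLr : L ^ 2 ≤ Lam * r) :
    ‖MM (mj n lam Lam t) (AL L (AL L f)) (jo (r • (w : EE n)) z)‖ₑ ^ p ≤
      ENNReal.ofReal (C₂ ^ p * C₁ ^ (p - 1)) *
        (ENNReal.ofReal (r ^ (-(((n : ℝ) - 1) / 2 * p))) *
        ∫⁻ v : Sp n, ENNReal.ofReal (bz n L (w : EE n) (v : EE n)) *
          JJ n L lam Lam t f v r z ^ p ∂(sg n)) := by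
  have hp0 : 0 ≤ p := by linarith
  have hn1 : (1 : ℝ) ≤ n := by exact_mod_cast (by omega : 1 ≤ n)
  set a : ℝ := ((n : ℝ) - 1) / 2 with ha
  have hJm : Measurable fun v : Sp n => JJ n L lam Lam t f v r z :=
    (meas_JJ n L lam Lam t f hG).comp
      (f := fun v : Sp n => (v, (z, r))) (by fun_prop)
  have hbm : Measurable fun v : Sp n => ENNReal.ofReal (bz n L (w : EE n) (v : EE n)) :=
    (meas_bz n L).comp (f := fun v : Sp n => (w, v)) (by fun_prop)
  have h1 : ‖((r ^ a : ℝ) : ℂ) * MM (mj n lam Lam t) (AL L (AL L f)) (jo (r • (w : EE n)) z)‖ₑ ≤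
      ENNReal.ofReal C₂ * ∫⁻ v : Sp n, ENNReal.ofReal (bz n L (w : EE n) (v : EE n)) *
          JJ n L lam Lam t f v r z ∂(sg n) := by
    rw [hRO n L lam Lam t B r z f w hn hL hlam hLam hf hfs hr hLr]
    rw [← lintegral_const_mul' _ _ ENNReal.ofReal_ne_top]
    refine (enorm_integral_le_lintegral_enorm _).trans (lintegral_mono fun v => ?_)
    refine (enorm_integral_le_lintegral_enorm _).trans ?_
    unfold JJ
    rw [← mul_assoc, ← lintegral_const_mul' _ _ (ENNReal.mul_ne_top ENNReal.ofReal_ne_top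
      ENNReal.ofReal_ne_top)]
    refine lintegral_mono fun x₁ => ?_
    rw [enorm_mul, ← mul_assoc]
    unfold VV
    refine mul_le_mul' ?_ le_rfl
    rw [← ofReal_norm, RCLike.norm_conj, ← ENNReal.ofReal_mul hC₂, ← ENNReal.ofReal_mul
      (mul_nonneg hC₂ (bz_nonneg n L (by linarith) _ _))]
    refine ENNReal.ofReal_le_ofReal ((hKW L Lam x₁ r w v hL hLam hLr).trans (le_of_eq ?_))
    ring
  have h2 : ENNReal.ofReal (r ^ a) *
      ‖MM (mj n lam Lam t) (AL L (AL L f)) (jo (r • (w : EE n)) z)‖ₑ ≤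
      ENNReal.ofReal C₂ * ∫⁻ v : Sp n, ENNReal.ofReal (bz n L (w : EE n) (v : EE n)) *
          JJ n L lam Lam t f v r z ∂(sg n) := by
    refine le_trans (le_of_eq ?_) h1
    rw [enorm_mul]
    congr 1
    rw [← ofReal_norm, Complex.norm_real, Real.norm_of_nonneg (Real.rpow_nonneg hr.le _)]
  have hra : 0 < r ^ a := Real.rpow_pos_of_pos hr _
  have h3 : ‖MM (mj n lam Lam t) (AL L (AL L f)) (jo (r • (w : EE n)) z)‖ₑ ≤
      ENNReal.ofReal (r ^ (-a)) * (ENNReal.ofReal C₂ *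
        ∫⁻ v : Sp n, ENNReal.ofReal (bz n L (w : EE n) (v : EE n)) *
          JJ n L lam Lam t f v r z ∂(sg n)) := by
    refine le_trans (le_of_eq ?_) (mul_le_mul' le_rfl h2)
    rw [← mul_assoc, ← ENNReal.ofReal_mul (Real.rpow_nonneg hr.le _), ← Real.rpow_add hr,
      neg_add_cancel, Real.rpow_zero, ENNReal.ofReal_one, one_mul]
  refine (ENNReal.rpow_le_rpow h3 hp0).trans ?_
  rw [ENNReal.mul_rpow_of_nonneg _ _ hp0, ENNReal.mul_rpow_of_nonneg _ _ hp0,
    ENNReal.ofReal_rpow_of_nonneg (Real.rpow_nonneg hr.le _) hp0, ← Real.rpow_mul hr.le,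
    ENNReal.ofReal_rpow_of_nonneg hC₂ hp0]
  have h4 := jensen_w (sg n) _ _ hbm hJm p hp
  have h5 : (∫⁻ v : Sp n, ENNReal.ofReal (bz n L (w : EE n) (v : EE n)) ∂(sg n)) ^ (p - 1) ≤
      ENNReal.ofReal (C₁ ^ (p - 1)) := by
    rw [← ENNReal.ofReal_rpow_of_nonneg hC₁ (by linarith)]
    exact ENNReal.rpow_le_rpow (hBZ L w hL) (by linarith)
  refine (mul_le_mul' le_rfl (mul_le_mul' le_rfl (h4.trans (mul_le_mul' h5 le_rfl)))).trans
    (le_of_eq ?_)
  rw [ENNReal.ofReal_mul (Real.rpow_nonneg hC₂ _), neg_mul]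
  ring

/-- the main estimate -/
theorem main (hRO : T_RO) (hKW : T_KW) (hBZ : T_BZ) (hGO : T_GO) (n : ℕ) (p : ℝ) (hn : 2 ≤ n)
    (hp : 1 ≤ p) : ∃ K : ℝ≥0, ∀ (L lam Lam t B : ℝ) (f : EE (n + 1) → ℂ) (R : Set ℝ),
    1 ≤ L → 0 < lam → 0 < Lam → BCd B f → (∀ x, f x ≠ 0 → L ^ 2 ≤ Lam * hor x) →
    MeasurableSet R → (∀ r ∈ R, 0 < r ∧ L ^ 2 ≤ Lam * r) →
    (Measurable (fun q : Sp n × (ℝ × ℝ) => GT n L Lam f q.1 q.2)) ∧
    ∫⁻ x in {x : EE (n + 1) | hor x ∈ R}, ‖MM (mj n lam Lam t) (AL L (AL L f)) x‖ₑ ^ p ≤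
    K * ∫⁻ v : Sp n, (∫⁻ z : ℝ, ∫⁻ r in Ioi (0 : ℝ), JJ n L lam Lam t f v r z ^ p *
      R.indicator (fun r => ENNReal.ofReal (r ^ (-(((n : ℝ) - 1) * (p / 2 - 1))))) r)
        ∂(sg n) := by
  obtain ⟨C₁, hC₁⟩ := hBZ n hn
  obtain ⟨C₂, hC₂0, hC₂⟩ := hKW n 4 hn
  obtain ⟨⟨C₃, hC₃0, hC₃⟩, -⟩ := hGO n hn
  have hn1 : (1 : ℝ) ≤ n := by exact_mod_cast (by omega : 1 ≤ n)
  have hBZ' : ∀ (L : ℝ) (v : Sp n), 1 ≤ L →
      ∫⁻ w : Sp n, ENNReal.ofReal (bz n L v w) ∂(sg n) ≤ ENNReal.ofReal (C₁ : ℝ) := by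
    intro L v hL
    rw [ENNReal.ofReal_coe_nnreal]
    exact hC₁ L v hL
  refine ⟨(C₂ ^ p * (C₁ : ℝ) ^ (p - 1)).toNNReal * C₁, ?_⟩
  intro L lam Lam t B f R hL hlam hLam hf hfs hR hRp
  have hG : Measurable (fun q : Sp n × (ℝ × ℝ) => GT n L Lam f q.1 q.2) := by
    obtain ⟨hfm, hfB, R', hR'⟩ := hf
    have hA : ∀ x : EE (n + 1), hor x ^ (((n : ℝ) - 1) / 2) * ‖f x‖ ≤
        |R'| ^ (((n : ℝ) - 1) / 2) * |B| := by
      intro x
      by_cases hx : f x = 0
      · rw [hx, norm_zero, mul_zero]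
        positivity
      · have h1 : ‖x‖ ≤ R' := by
          by_contra hc
          push Not at hc
          exact hx (hR' x hc)
        refine mul_le_mul ?_ ((hfB x).trans (le_abs_self B)) (norm_nonneg _) (by positivity)
        exact Real.rpow_le_rpow (Pool.Agent.H54.LS.hor_nonneg x)
          ((hor_le_norm x).trans (h1.trans (le_abs_self R'))) (by linarith)
    exact (hC₃ L Lam _ B f hL hLam ⟨hfm, hfB, R', hR'⟩ hfs hA).1
  refine ⟨hG, ?_⟩
  have hpt := ptw hRO n p C₁ C₂ hn hp C₁.2 hC₂0 (fun L Lam x r v w h1 h2 h3 =>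
    (hC₂ L Lam x r v w h1 h2 h3).2) hBZ' L lam Lam t B f hL hlam hLam hf hfs hG
  set u : EE (n + 1) → ℝ≥0∞ := fun x => ‖MM (mj n lam Lam t) (AL L (AL L f)) x‖ₑ ^ p with hu
  have hum : Measurable u := ((meas_MM _ _ (meas_mj n lam Lam t)
    (meas_AL L _ (meas_AL L f hf.1))).enorm).pow_const p
  have hS : MeasurableSet {x : EE (n + 1) | hor x ∈ R} := continuous_hor.measurable hR
  set W : ℝ → ℝ≥0∞ :=
    R.indicator (fun r => ENNReal.ofReal (r ^ (-(((n : ℝ) - 1) * (p / 2 - 1))))) with hW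
  have hWm : Measurable W := by
    refine Measurable.indicator ?_ hR
    fun_prop
  set K₀ : ℝ≥0∞ := ENNReal.ofReal (C₂ ^ p * (C₁ : ℝ) ^ (p - 1)) with hK₀
  have hcoe : (((C₂ ^ p * (C₁ : ℝ) ^ (p - 1)).toNNReal * C₁ : ℝ≥0) : ℝ≥0∞) = K₀ * C₁ := by
    rw [ENNReal.coe_mul]
    rfl
  rw [hcoe]
  have hbw : ∀ w : Sp n, Measurable fun v : Sp n =>
      ENNReal.ofReal (bz n L (w : EE n) (v : EE n)) := fun w =>
    (meas_bz n L).comp (f := fun v : Sp n => (w, v)) (by fun_prop)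
  have hJm := meas_JJ n L lam Lam t f hG
  set M : Measure (ℝ × ℝ) := (volume : Measure ℝ).prod (volume.restrict (Ioi (0 : ℝ))) with hM
  have hH : Measurable fun q : Sp n × (ℝ × ℝ) => JJ n L lam Lam t f q.1 q.2.2 q.2.1 ^ p * W q.2.2 :=
    (hJm.pow_const p).mul (hWm.comp (f := fun q : Sp n × (ℝ × ℝ) => q.2.2) (by fun_prop))
  have hΨ : ∀ v : Sp n, (∫⁻ z : ℝ, ∫⁻ r in Ioi (0 : ℝ), JJ n L lam Lam t f v r z ^ p * W r) =
      ∫⁻ q, JJ n L lam Lam t f v q.2 q.1 ^ p * W q.2 ∂M := by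
    intro v
    have h1 : Measurable fun q : ℝ × ℝ => JJ n L lam Lam t f v q.2 q.1 ^ p * W q.2 :=
      hH.comp (f := fun q : ℝ × ℝ => (v, q)) (by fun_prop)
    rw [hM, lintegral_prod _ h1.aemeasurable]
  have hΨm : Measurable fun v : Sp n =>
      ∫⁻ q, JJ n L lam Lam t f v q.2 q.1 ^ p * W q.2 ∂M := hH.lintegral_prod_right'
  calc ∫⁻ x in {x : EE (n + 1) | hor x ∈ R}, u x
      = ∫⁻ x, {x : EE (n + 1) | hor x ∈ R}.indicator u x := (lintegral_indicator hS _).symm
    _ = ∫⁻ w : Sp n, (∫⁻ z : ℝ, ∫⁻ r in Ioi (0 : ℝ), ENNReal.ofReal (r ^ (n - 1)) *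
          {x : EE (n + 1) | hor x ∈ R}.indicator u (jo (r • (w : EE n)) z)) ∂(sg n) :=
        lint_cyl n (by omega) _ (hum.indicator hS)
    _ ≤ ∫⁻ w : Sp n, (∫⁻ z : ℝ, ∫⁻ r in Ioi (0 : ℝ), K₀ * ∫⁻ v : Sp n,
          ENNReal.ofReal (bz n L (w : EE n) (v : EE n)) *
            (JJ n L lam Lam t f v r z ^ p * W r) ∂(sg n)) ∂(sg n) := by
        refine lintegral_mono fun w => lintegral_mono fun z => ?_
        refine setLIntegral_mono' measurableSet_Ioi fun r hr => ?_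
        have hr0 : 0 < r := hr
        have hhor : hor (jo (r • (w : EE n)) z) = r := hor_cyl w ⟨r, hr⟩ z
        by_cases hrR : r ∈ R
        · have h1 : jo (r • (w : EE n)) z ∈ {x : EE (n + 1) | hor x ∈ R} := by
            show hor (jo (r • (w : EE n)) z) ∈ R
            rw [hhor]
            exact hrR
          rw [indicator_of_mem h1]
          refine (mul_le_mul' le_rfl (hpt w r z hr0 (hRp r hrR).2)).trans (le_of_eq ?_)
          have h2 : W r = ENNReal.ofReal (r ^ (-(((n : ℝ) - 1) * (p / 2 - 1)))) :=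
            indicator_of_mem hrR _
          have h3 : ENNReal.ofReal (r ^ (n - 1)) *
              ENNReal.ofReal (r ^ (-(((n : ℝ) - 1) / 2 * p))) = W r := by
            rw [h2, ← ENNReal.ofReal_mul (by positivity), ← Real.rpow_natCast,
              ← Real.rpow_add hr0]
            congr 2
            rw [Nat.cast_sub (by omega)]
            push_cast
            ring
          have h4 : ∀ v : Sp n, ENNReal.ofReal (bz n L (w : EE n) (v : EE n)) *
              (JJ n L lam Lam t f v r z ^ p * W r) =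
              W r * (ENNReal.ofReal (bz n L (w : EE n) (v : EE n)) *
                JJ n L lam Lam t f v r z ^ p) := by
            intro v
            ring
          simp_rw [h4]
          rw [lintegral_const_mul' _ _ (by rw [h2]; exact ENNReal.ofReal_ne_top), ← h3]
          ring
        · have h1 : jo (r • (w : EE n)) z ∉ {x : EE (n + 1) | hor x ∈ R} := by
            show ¬ (hor (jo (r • (w : EE n)) z) ∈ R)
            rw [hhor]
            exact hrR
          rw [indicator_of_notMem h1, mul_zero]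
          exact zero_le
    _ = ∫⁻ w : Sp n, (K₀ * ∫⁻ v : Sp n, ENNReal.ofReal (bz n L (w : EE n) (v : EE n)) *
          (∫⁻ q, JJ n L lam Lam t f v q.2 q.1 ^ p * W q.2 ∂M) ∂(sg n)) ∂(sg n) := by
        refine lintegral_congr fun w => ?_
        have h1 : Measurable fun q : (ℝ × ℝ) × Sp n =>
            ENNReal.ofReal (bz n L (w : EE n) (q.2 : EE n)) *
              (JJ n L lam Lam t f q.2 q.1.2 q.1.1 ^ p * W q.1.2) := by
          refine Measurable.mul ?_ ?_
          · exact (hbw w).comp measurable_snd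
          · exact hH.comp (f := fun q : (ℝ × ℝ) × Sp n => (q.2, q.1)) (by fun_prop)
        have h2 : Measurable fun q : ℝ × ℝ => ∫⁻ v : Sp n,
            ENNReal.ofReal (bz n L (w : EE n) (v : EE n)) *
              (JJ n L lam Lam t f v q.2 q.1 ^ p * W q.2) ∂(sg n) := h1.lintegral_prod_right'
        have h3 : (∫⁻ z : ℝ, ∫⁻ r in Ioi (0 : ℝ), K₀ * ∫⁻ v : Sp n,
            ENNReal.ofReal (bz n L (w : EE n) (v : EE n)) *
              (JJ n L lam Lam t f v r z ^ p * W r) ∂(sg n)) =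
            ∫⁻ q, K₀ * ∫⁻ v : Sp n, ENNReal.ofReal (bz n L (w : EE n) (v : EE n)) *
              (JJ n L lam Lam t f v q.2 q.1 ^ p * W q.2) ∂(sg n) ∂M := by
          rw [hM, lintegral_prod _ (h2.const_mul K₀).aemeasurable]
        rw [h3, lintegral_const_mul _ h2]
        congr 1
        rw [lintegral_lintegral_swap (f := fun (q : ℝ × ℝ) (v : Sp n) =>
          ENNReal.ofReal (bz n L (w : EE n) (v : EE n)) *
              (JJ n L lam Lam t f v q.2 q.1 ^ p * W q.2)) h1.aemeasurable]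
        refine lintegral_congr fun v => ?_
        rw [lintegral_const_mul' _ _ ENNReal.ofReal_ne_top]
    _ = K₀ * ∫⁻ w : Sp n, (∫⁻ v : Sp n, ENNReal.ofReal (bz n L (w : EE n) (v : EE n)) *
          (∫⁻ q, JJ n L lam Lam t f v q.2 q.1 ^ p * W q.2 ∂M) ∂(sg n)) ∂(sg n) :=
        lintegral_const_mul' _ _ ENNReal.ofReal_ne_top
    _ = K₀ * ∫⁻ v : Sp n, (∫⁻ w : Sp n, ENNReal.ofReal (bz n L (w : EE n) (v : EE n)) *
          (∫⁻ q, JJ n L lam Lam t f v q.2 q.1 ^ p * W q.2 ∂M) ∂(sg n)) ∂(sg n) := by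
        congr 1
        refine lintegral_lintegral_swap (f := fun (w v : Sp n) =>
          ENNReal.ofReal (bz n L (w : EE n) (v : EE n)) *
          (∫⁻ q, JJ n L lam Lam t f v q.2 q.1 ^ p * W q.2 ∂M)) ?_
        exact ((meas_bz n L).mul (hΨm.comp measurable_snd)).aemeasurable
    _ ≤ K₀ * ∫⁻ v : Sp n, (C₁ : ℝ≥0∞) *
          (∫⁻ q, JJ n L lam Lam t f v q.2 q.1 ^ p * W q.2 ∂M) ∂(sg n) := by
        refine mul_le_mul' le_rfl (lintegral_mono fun v => ?_)
        have h1 : Measurable fun w : Sp n => ENNReal.ofReal (bz n L (w : EE n) (v : EE n)) :=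
          (meas_bz n L).comp (f := fun w : Sp n => (w, v)) (by fun_prop)
        rw [lintegral_mul_const _ h1]
        refine mul_le_mul' ?_ le_rfl
        simp_rw [bz_symm n L _ (v : EE n)]
        exact hC₁ L v hL
    _ = K₀ * C₁ * ∫⁻ v : Sp n, (∫⁻ z : ℝ, ∫⁻ r in Ioi (0 : ℝ),
          JJ n L lam Lam t f v r z ^ p * W r) ∂(sg n) := by
        rw [lintegral_const_mul' _ _ ENNReal.coe_ne_top, mul_assoc]
        congr 2
        refine lintegral_congr fun v => ?_
        rw [hΨ v]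

/-- module PA -/
theorem pf_pa (hRO : T_RO) (hKW : T_KW) (hBZ : T_BZ) (hWR : T_WRED) (hGO : T_GO) : T_PA := by
  intro n p hn hp hβ1 hβ0
  obtain ⟨K, hK⟩ := main hRO hKW hBZ hGO n p hn hp
  obtain ⟨D₁, hD₁⟩ := hWR p (((n : ℝ) - 1) * (p / 2 - 1)) hp hβ0 hβ1
  obtain ⟨D₂, hD₂⟩ := hWR p 0 hp le_rfl one_pos
  refine ⟨K * (D₁ + D₂), ?_⟩
  intro L lam Lam t B f R hL hlam hLam hf hfs hR hRp
  obtain ⟨hG, hmain⟩ := hK L lam Lam t B f R hL hlam hLam hf hfs hR hRp
  have hV : ∀ v : Sp n, Measurable fun x : ℝ × ℝ => VV n L lam Lam t f v x := fun v =>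
    (meas_VV n L lam Lam t f hG).comp (f := fun x : ℝ × ℝ => (v, x)) (by fun_prop)
  refine ⟨?_, ?_⟩
  · refine hmain.trans ?_
    rw [ENNReal.coe_mul, mul_assoc]
    refine mul_le_mul' le_rfl ?_
    calc ∫⁻ v : Sp n, (∫⁻ z : ℝ, ∫⁻ r in Ioi (0 : ℝ), JJ n L lam Lam t f v r z ^ p *
      R.indicator (fun r => ENNReal.ofReal (r ^ (-(((n : ℝ) - 1) * (p / 2 - 1))))) r) ∂(sg n)
        ≤ ∫⁻ v : Sp n, (D₁ : ℝ≥0∞) * (∫⁻ x : ℝ × ℝ, VV n L lam Lam t f v x ^ p *
            ENNReal.ofReal ((|x.1| + 1 / Lam) ^ (-(((n : ℝ) - 1) * (p / 2 - 1))))) ∂(sg n) := by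
          refine lintegral_mono fun v => ?_
          refine le_trans ?_ (hD₁ Lam (VV n L lam Lam t f v) hLam (hV v))
          refine lintegral_mono fun z => lintegral_mono fun r => ?_
          unfold JJ
          refine mul_le_mul' le_rfl ?_
          exact indicator_le_self' (fun _ _ => zero_le) r
      _ ≤ _ := by
          rw [lintegral_const_mul' _ _ ENNReal.coe_ne_top]
          refine mul_le_mul' ?_ le_rfl
          rw [ENNReal.coe_add]
          exact le_self_add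
  · intro D hD hRD
    refine hmain.trans ?_
    rw [ENNReal.coe_mul, mul_assoc, mul_assoc]
    refine mul_le_mul' le_rfl ?_
    calc ∫⁻ v : Sp n, (∫⁻ z : ℝ, ∫⁻ r in Ioi (0 : ℝ), JJ n L lam Lam t f v r z ^ p *
      R.indicator (fun r => ENNReal.ofReal (r ^ (-(((n : ℝ) - 1) * (p / 2 - 1))))) r) ∂(sg n)
        ≤ ∫⁻ v : Sp n, (ENNReal.ofReal (D ^ (-(((n : ℝ) - 1) * (p / 2 - 1)))) * D₂) *
            (∫⁻ x : ℝ × ℝ, VV n L lam Lam t f v x ^ p) ∂(sg n) := by
          refine lintegral_mono fun v => ?_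
          have h1 := hD₂ Lam (VV n L lam Lam t f v) hLam (hV v)
          simp only [neg_zero, Real.rpow_zero, ENNReal.ofReal_one, mul_one] at h1
          rw [mul_assoc]
          refine le_trans ?_ (mul_le_mul' le_rfl h1)
          rw [← lintegral_const_mul' _ _ ENNReal.ofReal_ne_top]
          refine lintegral_mono fun z => ?_
          rw [← lintegral_const_mul' _ _ ENNReal.ofReal_ne_top]
          refine lintegral_mono fun r => ?_
          show JJ n L lam Lam t f v r z ^ p * _ ≤ _ * JJ n L lam Lam t f v r z ^ p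
          rw [mul_comm]
          refine mul_le_mul' ?_ le_rfl
          by_cases hr : r ∈ R
          · rw [indicator_of_mem hr]
            refine ENNReal.ofReal_le_ofReal ?_
            exact Real.rpow_le_rpow_of_nonpos hD (hRD r hr) (by linarith)
          · rw [indicator_of_notMem hr]
            exact zero_le
      _ ≤ _ := by
          rw [lintegral_const_mul' _ _ (ENNReal.mul_ne_top ENNReal.ofReal_ne_top
            ENNReal.coe_ne_top), ← mul_assoc]
          refine mul_le_mul' ?_ le_rfl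
          rw [mul_comm, ENNReal.coe_add]
          exact mul_le_mul' le_add_self le_rfl

end Pool.Agent.H42.BR
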