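import Pool.Agent.H83.AR.Targets3
import Pool.Agent.H42.BR.PA

/-! Module SWF: exchange of the blocks, Fourier multipliers and averages. -/

set_option autoImplicit false

namespace Pool.Agent.H42.BR

open MeasureTheory Set FourierTransform
open Pool.Agent.H83.AR Pool.Agent.H93.AR Pool.Agent.H83.LS Pool.Agent.H54.LS Pool.Agent.H14.LS
open scoped ENNReal NNReal

theorem F_eq {d : ℕ} (g : EE d → ℂ) (w : EE d) :
    (𝓕 g) w = ∫ v, e (-(inner ℝ v w)) * g v := by
  rw [Real.fourier_eq']
  refine integral_congr_ae (ae_of_all _ fun v => ?_)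
  simp only [e, smul_eq_mul]
  congr 2
  push_cast
  ring

/-- module SWF -/
theorem pf_swf (hJM : T_JM) : T_SWF := by
  intro a b f ha hb hf hfi
  obtain ⟨hj1, -, hin, -, -, -, -, hc1, -, -, -, hmp, hsw, hinsw⟩ := hJM b a
  obtain ⟨-, -, -, -, -, -, -, hc2, -, -, -, -, hsw2, -⟩ := hJM a b
  let Φ : EE (b + a) ≃ₜ EE (a + b) :=
    { toFun := sw b a
      invFun := sw a b
      left_inv := fun x => (hsw x).1
      right_inv := fun x => (hsw2 x).1
      continuous_toFun := hc1
      continuous_invFun := hc2 }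
  have hemb : MeasurableEmbedding (sw b a) := Φ.measurableEmbedding
  have hF : ∀ ξ, 𝓕 (fun x => f (sw b a x)) ξ = 𝓕 f (sw b a ξ) := by
    intro ξ
    rw [F_eq, F_eq, ← hmp.integral_comp hemb]
    refine integral_congr_ae (ae_of_all _ fun x => ?_)
    show e (-(inner ℝ x ξ)) * f (sw b a x) = e (-(inner ℝ (sw b a x) (sw b a ξ))) * f (sw b a x)
    rw [hinsw]
  refine ⟨hF, ?_, ?_⟩
  · intro m x
    unfold MM
    rw [← hmp.integral_comp hemb]
    refine integral_congr_ae (ae_of_all _ fun ξ => ?_)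
    show e (inner ℝ x ξ) * (m (sw b a ξ) * 𝓕 (fun x => f (sw b a x)) ξ) =
      e (inner ℝ (sw b a x) (sw b a ξ)) * (m (sw b a ξ) * 𝓕 f (sw b a ξ))
    rw [hinsw, hF]
  · intro L x
    have hjm : ∀ (u : EE b) (v : EE a), sw b a (jm b a u v) = jm a b v u := by
      intro u v
      unfold sw
      rw [(hj1 u v).1, (hj1 u v).2]
    constructor
    · unfold A2 A1
      rw [(hsw x).2.2.1, (hsw x).2.2.2]
      refine integral_congr_ae (ae_of_all _ fun w => ?_)
      show _ * f (sw b a (jm b a _ _)) = _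
      rw [hjm]
    · unfold A2 A1
      rw [(hsw x).2.2.1, (hsw x).2.2.2]
      refine integral_congr_ae (ae_of_all _ fun w => ?_)
      show _ * f (sw b a (jm b a _ _)) = _
      rw [hjm]

end Pool.Agent.H42.BR
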