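import Pool.Agent.H83.AR.Targets3
import Pool.Agent.H42.BR.SWF

/-! Module LI2: pointwise limits. -/

set_option autoImplicit false

namespace Pool.Agent.H42.BR

open MeasureTheory Set FourierTransform Filter Topology
open Pool.Agent.H83.AR Pool.Agent.H93.AR Pool.Agent.H83.LS Pool.Agent.H54.LS Pool.Agent.H14.LS
open scoped ENNReal NNReal

theorem norm_e (x : ℝ) : ‖e x‖ = 1 := by
  unfold e
  exact Complex.norm_exp_ofReal_mul_I _

theorem enorm_e (x : ℝ) : ‖e x‖ₑ = 1 := by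
  rw [← ofReal_norm, norm_e, ENNReal.ofReal_one]

theorem int_e_mul {d : ℕ} (g : EE d → ℂ) (hg : Integrable g) (w : EE d) :
    Integrable fun v => e (-(inner ℝ v w)) * g v := by
  refine hg.bdd_mul (c := 1) ?_ (ae_of_all _ fun v => (norm_e _).le)
  exact (meas_e.comp (f := fun v : EE d => -(inner ℝ v w)) (by fun_prop)).aestronglyMeasurable

theorem F_sub_le {d : ℕ} (g h : EE d → ℂ) (hg : Integrable g) (hh : Integrable h) (w : EE d) :
    ‖(𝓕 g) w - (𝓕 h) w‖ₑ ≤ ∫⁻ v, ‖g v - h v‖ₑ := by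
  rw [F_eq, F_eq, ← integral_sub (int_e_mul g hg w) (int_e_mul h hh w)]
  refine (enorm_integral_le_lintegral_enorm _).trans (lintegral_mono fun v => ?_)
  show ‖e (-(inner ℝ v w)) * g v - e (-(inner ℝ v w)) * h v‖ₑ ≤ ‖g v - h v‖ₑ
  rw [← mul_sub, enorm_mul, enorm_e, one_mul]

theorem F_le {d : ℕ} (g : EE d → ℂ) (w : EE d) :
    ‖(𝓕 g) w‖ₑ ≤ ∫⁻ v, ‖g v‖ₑ := by
  rw [F_eq]
  refine (enorm_integral_le_lintegral_enorm _).trans (lintegral_mono fun v => ?_)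
  show ‖e (-(inner ℝ v w)) * g v‖ₑ ≤ ‖g v‖ₑ
  rw [enorm_mul, enorm_e, one_mul]

/-- linear averaging operators -/
def GoodP {d : ℕ} (P : (EE d → ℂ) → EE d → ℂ) : Prop :=
  (∀ f, Measurable f → Measurable (P f)) ∧
  (∀ (f : EE d → ℂ) (A : ℝ), Measurable f → (∀ x, ‖f x‖ ≤ A) → ∀ x, ‖P f x‖ ≤ A) ∧
  (∀ f, Measurable f → ∫⁻ x, ‖P f x‖ₑ ≤ ∫⁻ x, ‖f x‖ₑ) ∧
  (∀ f g : EE d → ℂ, Measurable f → Measurable g → (∃ A : ℝ, ∀ x, ‖f x‖ ≤ A) →
    (∃ A : ℝ, ∀ x, ‖g x‖ ≤ A) → P (fun x => f x - g x) = fun x => P f x - P g x)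

theorem GoodP.comp {d : ℕ} {P Q : (EE d → ℂ) → EE d → ℂ} (hP : GoodP P) (hQ : GoodP Q) :
    GoodP (fun f => P (Q f)) := by
  obtain ⟨p1, p2, p3, p4⟩ := hP
  obtain ⟨q1, q2, q3, q4⟩ := hQ
  refine ⟨fun f hf => p1 _ (q1 f hf), fun f A hf hA => p2 _ A (q1 f hf) (q2 f A hf hA),
    fun f hf => (p3 _ (q1 f hf)).trans (q3 f hf), fun f g hf hg hfA hgA => ?_⟩
  show P (Q fun x => f x - g x) = _
  rw [q4 f g hf hg hfA hgA]
  obtain ⟨A, hA⟩ := hfA
  obtain ⟨B, hB⟩ := hgA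
  exact p4 _ _ (q1 f hf) (q1 g hg) ⟨A, q2 f A hf hA⟩ ⟨B, q2 g B hg hB⟩

theorem goodP_of (hAM : T_AM2) (a b : ℕ) (L : ℝ) (ha : 1 ≤ a) (hb : 1 ≤ b) (hL : 1 ≤ L)
    (P : (EE (a + b) → ℂ) → EE (a + b) → ℂ) (hP : P = A1 a b L ∨ P = A2 a b L) : GoodP P := by
  obtain ⟨h1, h2, h3, -, -, h6⟩ := hAM a b L P ha hb hL hP
  refine ⟨h1, h2, fun f hf => ?_, fun f g hf hg hfA hgA => funext fun x => h6 f g hf hg hfA hgA x⟩
  have := h3 f 1 hf le_rfl
  simpa only [ENNReal.rpow_one] using this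

theorem lim_good {d : ℕ} (P : (EE d → ℂ) → EE d → ℂ) (hP : GoodP P) (A : ℝ) (m f : EE d → ℂ)
    (hf : BI A f) (hm : Measurable m) (hmi : Integrable m) (x : EE d) :
    Tendsto (fun k : ℕ => MM m (P ((Metric.closedBall (0 : EE d) (k : ℝ)).indicator f)) x)
      atTop (𝓝 (MM m (P f) x)) := by
  obtain ⟨p1, p2, p3, p4⟩ := hP
  obtain ⟨hfm, hfi, hfA⟩ := hf
  set fk : ℕ → EE d → ℂ := fun k => (Metric.closedBall (0 : EE d) (k : ℝ)).indicator f with hfk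
  have hkm : ∀ k, Measurable (fk k) := fun k => hfm.indicator Metric.isClosed_closedBall.measurableSet
  have hkle : ∀ k y, ‖fk k y‖ ≤ ‖f y‖ := fun k y => norm_indicator_le_norm_self f y
  have hkA : ∀ k y, ‖fk k y‖ ≤ A := fun k y => (hkle k y).trans (hfA y)
  have hfin : ∫⁻ y, ‖f y‖ₑ ≠ ⊤ := by
    have := hfi.2
    exact this.ne
  have hL1 : ∀ k, ∫⁻ y, ‖fk k y‖ₑ ≤ ∫⁻ y, ‖f y‖ₑ := fun k =>
    lintegral_mono fun y => by
      rw [← ofReal_norm, ← ofReal_norm]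
      exact ENNReal.ofReal_le_ofReal (hkle k y)
  have hPi : ∀ g : EE d → ℂ, Measurable g → (∫⁻ y, ‖g y‖ₑ ≤ ∫⁻ y, ‖f y‖ₑ) →
      Integrable (P g) := by
    intro g hg hle
    refine ⟨(p1 g hg).aestronglyMeasurable, ?_⟩
    exact lt_of_le_of_lt ((p3 g hg).trans hle) (lt_top_iff_ne_top.2 hfin)
  have hd : Tendsto (fun k => ∫⁻ y, ‖fk k y - f y‖ₑ) atTop (𝓝 0) := by
    have h1 : ∫⁻ _ : EE d, (0 : ℝ≥0∞) = 0 := lintegral_zero
    rw [← h1]
    refine tendsto_lintegral_of_dominated_convergence (fun y => ‖f y‖ₑ) (fun k => ?_)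
      (fun k => ae_of_all _ fun y => ?_) hfin (ae_of_all _ fun y => ?_)
    · exact ((hkm k).sub hfm).enorm
    · show ‖fk k y - f y‖ₑ ≤ ‖f y‖ₑ
      by_cases hy : y ∈ Metric.closedBall (0 : EE d) (k : ℝ)
      · have h2 : fk k y = f y := indicator_of_mem hy f
        rw [h2, sub_self, enorm_zero]
        exact zero_le
      · have h2 : fk k y = 0 := indicator_of_notMem hy f
        rw [h2, zero_sub, enorm_neg]
    · obtain ⟨N, hN⟩ := exists_nat_ge ‖y‖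
      refine tendsto_const_nhds.congr' ?_
      filter_upwards [eventually_ge_atTop N] with k hk
      have hy : y ∈ Metric.closedBall (0 : EE d) (k : ℝ) := by
        rw [mem_closedBall_zero_iff]
        exact hN.trans (by exact_mod_cast hk)
      have h2 : fk k y = f y := indicator_of_mem hy f
      rw [h2, sub_self, enorm_zero]
  have hF : ∀ ξ, Tendsto (fun k => (𝓕 (P (fk k))) ξ) atTop (𝓝 ((𝓕 (P f)) ξ)) := by
    intro ξ
    rw [tendsto_iff_edist_tendsto_0]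
    refine tendsto_of_tendsto_of_tendsto_of_le_of_le tendsto_const_nhds hd
      (fun k => zero_le) (fun k => ?_)
    show edist ((𝓕 (P (fk k))) ξ) ((𝓕 (P f)) ξ) ≤ _
    rw [edist_eq_enorm_sub]
    refine (F_sub_le _ _ (hPi _ (hkm k) (hL1 k)) (hPi _ hfm le_rfl) ξ).trans ?_
    have h1 := p4 (fk k) f (hkm k) hfm ⟨A, hkA k⟩ ⟨A, hfA⟩
    have h2 := p3 (fun y => fk k y - f y) ((hkm k).sub hfm)
    rw [h1] at h2
    exact h2
  unfold MM
  refine tendsto_integral_of_dominated_convergence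
    (fun ξ => ‖m ξ‖ * (∫⁻ y, ‖f y‖ₑ).toReal) (fun k => ?_) ?_ (fun k => ae_of_all _ fun ξ => ?_)
    (ae_of_all _ fun ξ => ?_)
  · refine Measurable.aestronglyMeasurable ?_
    refine Measurable.mul ?_ (hm.mul (meas_F _ (p1 _ (hkm k))))
    exact meas_e.comp (f := fun ξ : EE d => inner ℝ x ξ) (by fun_prop)
  · exact hmi.norm.mul_const _
  · rw [norm_mul, norm_e, one_mul, norm_mul]
    refine mul_le_mul_of_nonneg_left ?_ (norm_nonneg _)
    have h1 := (F_le (P (fk k)) ξ).trans ((p3 _ (hkm k)).trans (hL1 k))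
    rw [← toReal_enorm]
    exact ENNReal.toReal_mono hfin h1
  · exact tendsto_const_nhds.mul (tendsto_const_nhds.mul (hF ξ))

/-- module LI2 -/
theorem pf_li2 (hAM : T_AM2) : T_LI2 := by
  intro a b L A m f ha hb hL hf hm hmi x
  have h1 := goodP_of hAM a b L ha hb hL _ (Or.inl rfl)
  have h2 := goodP_of hAM a b L ha hb hL _ (Or.inr rfl)
  exact lim_good (AQ a b L) (h1.comp (h1.comp (h2.comp h2))) A m f hf hm hmi x

end Pool.Agent.H42.BR
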