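import Pool.Agent.H83.AR.Targets2
import Pool.Agent.H42.BR.PA

/-! Module PA2: back from the plane for `mj2`, slabs in the last variable. -/

set_option autoImplicit false

namespace Pool.Agent.H42.BR

open MeasureTheory Set FourierTransform
open Pool.Agent.H83.AR Pool.Agent.H93.AR Pool.Agent.H83.LS Pool.Agent.H54.LS Pool.Agent.H14.LS
open scoped ENNReal NNReal

theorem meas_chis : Measurable chis := by
  unfold chis
  exact (meas_eta0.comp (by fun_prop)).sub (meas_eta0.comp (by fun_prop))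

theorem meas_mj2 (n : ℕ) (lam Lam M t : ℝ) : Measurable (mj2 n lam Lam M t) := by
  unfold mj2
  exact (meas_mj n lam Lam t).mul (Complex.measurable_ofReal.comp (meas_chis.comp (by fun_prop)))

theorem meas_KK2 (t lam Lam M : ℝ) : Measurable (KK2 t lam Lam M) := by
  have h1 : StronglyMeasurable (Function.uncurry fun (x ξ : ℝ × ℝ) =>
      e (x.1 * ξ.1 + x.2 * ξ.2 + t * Real.sqrt (ξ.1 ^ 2 + ξ.2 ^ 2)) *
    ((chi (Real.sqrt (ξ.1 ^ 2 + ξ.2 ^ 2) / lam) * chis (ξ.1 / Lam) * chis (ξ.2 / M) : ℝ) : ℂ)) := by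
    apply Measurable.stronglyMeasurable
    refine Measurable.mul ?_ ?_
    · exact meas_e.comp (f := fun q : (ℝ × ℝ) × (ℝ × ℝ) =>
        q.1.1 * q.2.1 + q.1.2 * q.2.2 + t * Real.sqrt (q.2.1 ^ 2 + q.2.2 ^ 2)) (by fun_prop)
    · refine Complex.measurable_ofReal.comp ?_
      refine Measurable.mul (Measurable.mul ?_ ?_) ?_
      · exact meas_chi.comp (f := fun q : (ℝ × ℝ) × (ℝ × ℝ) =>
          Real.sqrt (q.2.1 ^ 2 + q.2.2 ^ 2) / lam) (by fun_prop)
      · exact meas_chis.comp (f := fun q : (ℝ × ℝ) × (ℝ × ℝ) => q.2.1 / Lam) (by fun_prop)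
      · exact meas_chis.comp (f := fun q : (ℝ × ℝ) × (ℝ × ℝ) => q.2.2 / M) (by fun_prop)
  exact (StronglyMeasurable.integral_prod_right (ν := volume) h1).measurable

/-- the function integrated in the plane -/
noncomputable def VV2 (n : ℕ) (L lam Lam M t ε : ℝ) (f : EE (n + 1) → ℂ) (v : Sp n)
    (x : ℝ × ℝ) : ℝ≥0∞ :=
  {x : ℝ × ℝ | |x.2| ≤ ε}.indicator (fun x => ‖cv (KK2 t lam Lam M) (GT n L Lam f v) x‖ₑ) x

theorem meas_slab (ε : ℝ) : MeasurableSet {x : ℝ × ℝ | |x.2| ≤ ε} :=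
  measurableSet_le (f := fun x : ℝ × ℝ => |x.2|) (g := fun _ => ε) (by fun_prop) measurable_const

/-- the weighted line integrals -/
noncomputable def JJ2 (n : ℕ) (L lam Lam M t ε : ℝ) (f : EE (n + 1) → ℂ) (v : Sp n) (r z : ℝ) :
    ℝ≥0∞ := ∫⁻ x₁ : ℝ, ENNReal.ofReal
      (Lam * (((1 + |Lam * x₁ - Lam * r|) ^ 4)⁻¹ + ((1 + |Lam * x₁ + Lam * r|) ^ 4)⁻¹)) *
      VV2 n L lam Lam M t ε f v (x₁, z)

theorem meas_VV2 (n : ℕ) (L lam Lam M t ε : ℝ) (f : EE (n + 1) → ℂ)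
    (hG : Measurable (fun q : Sp n × (ℝ × ℝ) => GT n L Lam f q.1 q.2)) :
    Measurable fun q : Sp n × (ℝ × ℝ) => VV2 n L lam Lam M t ε f q.1 q.2 := by
  have h1 : StronglyMeasurable (Function.uncurry fun (q : Sp n × (ℝ × ℝ)) (y : ℝ × ℝ) =>
      KK2 t lam Lam M (q.2 - y) * GT n L Lam f q.1 y) := by
    apply Measurable.stronglyMeasurable
    refine Measurable.mul ?_ ?_
    · exact (meas_KK2 t lam Lam M).comp
        (f := fun r : (Sp n × (ℝ × ℝ)) × (ℝ × ℝ) => r.1.2 - r.2) (by fun_prop)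
    · exact hG.comp (f := fun r : (Sp n × (ℝ × ℝ)) × (ℝ × ℝ) => (r.1.1, r.2)) (by fun_prop)
  have h2 : Measurable fun q : Sp n × (ℝ × ℝ) =>
      ‖cv (KK2 t lam Lam M) (GT n L Lam f q.1) q.2‖ₑ :=
    (StronglyMeasurable.integral_prod_right (ν := volume) h1).measurable.enorm
  have h3 : (fun q : Sp n × (ℝ × ℝ) => VV2 n L lam Lam M t ε f q.1 q.2) =
      {q : Sp n × (ℝ × ℝ) | |q.2.2| ≤ ε}.indicator
        (fun q => ‖cv (KK2 t lam Lam M) (GT n L Lam f q.1) q.2‖ₑ) := by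
    funext q
    by_cases h : |q.2.2| ≤ ε
    · have ha : q.2 ∈ {x : ℝ × ℝ | |x.2| ≤ ε} := h
      have hb : q ∈ {q : Sp n × (ℝ × ℝ) | |q.2.2| ≤ ε} := h
      rw [indicator_of_mem hb]
      exact indicator_of_mem ha _
    · have ha : q.2 ∉ {x : ℝ × ℝ | |x.2| ≤ ε} := h
      have hb : q ∉ {q : Sp n × (ℝ × ℝ) | |q.2.2| ≤ ε} := h
      rw [indicator_of_notMem hb]
      exact indicator_of_notMem ha _
  rw [h3]
  exact h2.indicator ((meas_slab ε).preimage measurable_snd)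

theorem lint_VV2 (n : ℕ) (L lam Lam M t ε : ℝ) (f : EE (n + 1) → ℂ) (v : Sp n) (p : ℝ)
    (hp : 0 < p) (g : ℝ × ℝ → ℝ≥0∞) :
    ∫⁻ x : ℝ × ℝ, VV2 n L lam Lam M t ε f v x ^ p * g x =
      ∫⁻ x in {x : ℝ × ℝ | |x.2| ≤ ε}, ‖cv (KK2 t lam Lam M) (GT n L Lam f v) x‖ₑ ^ p * g x := by
  rw [← lintegral_indicator (meas_slab ε)]
  refine lintegral_congr fun x => ?_
  unfold VV2
  by_cases h : x ∈ {x : ℝ × ℝ | |x.2| ≤ ε}
  · rw [indicator_of_mem h, indicator_of_mem h]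
  · rw [indicator_of_notMem h, indicator_of_notMem h, ENNReal.zero_rpow_of_pos hp, zero_mul]

theorem meas_JJ2 (n : ℕ) (L lam Lam M t ε : ℝ) (f : EE (n + 1) → ℂ)
    (hG : Measurable (fun q : Sp n × (ℝ × ℝ) => GT n L Lam f q.1 q.2)) :
    Measurable fun q : Sp n × (ℝ × ℝ) => JJ2 n L lam Lam M t ε f q.1 q.2.2 q.2.1 := by
  unfold JJ2
  have h1 : Measurable (Function.uncurry fun (q : Sp n × (ℝ × ℝ)) (x₁ : ℝ) => ENNReal.ofReal
      (Lam * (((1 + |Lam * x₁ - Lam * q.2.2|) ^ 4)⁻¹ + ((1 + |Lam * x₁ + Lam * q.2.2|) ^ 4)⁻¹)) *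
      VV2 n L lam Lam M t ε f q.1 (x₁, q.2.1)) := by
    have h2 : Measurable fun q : (Sp n × (ℝ × ℝ)) × ℝ => ENNReal.ofReal
        (Lam * (((1 + |Lam * q.2 - Lam * q.1.2.2|) ^ 4)⁻¹ +
          ((1 + |Lam * q.2 + Lam * q.1.2.2|) ^ 4)⁻¹)) := by
      refine ENNReal.measurable_ofReal.comp (f := fun q : (Sp n × (ℝ × ℝ)) × ℝ =>
        (Lam * (((1 + |Lam * q.2 - Lam * q.1.2.2|) ^ 4)⁻¹ +
          ((1 + |Lam * q.2 + Lam * q.1.2.2|) ^ 4)⁻¹))) ?_
      fun_prop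
    refine Measurable.mul h2 ?_
    · exact (meas_VV2 n L lam Lam M t ε f hG).comp
        (f := fun r : (Sp n × (ℝ × ℝ)) × ℝ => (r.1.1, (r.2, r.1.2.1))) (by fun_prop)
  exact h1.lintegral_prod_right'

/-- the pointwise bound -/
theorem ptw2 (hRO : T_RO2) (n : ℕ) (p C₁ C₂ : ℝ) (hn : 2 ≤ n) (hp : 1 ≤ p) (hC₁ : 0 ≤ C₁)
    (hC₂ : 0 ≤ C₂)
    (hKW : ∀ (L Lam x r : ℝ) (v w : Sp n), 1 ≤ L → 0 < Lam → L ^ 2 ≤ Lam * r →
      ‖((Lam : ℝ) : ℂ) * kz n L (fun s => ((chis s : ℝ) : ℂ)) (Lam * x) (Lam * r) v w‖ ≤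
      C₂ * Lam * (((1 + |Lam * x - Lam * r|) ^ 4)⁻¹ + ((1 + |Lam * x + Lam * r|) ^ 4)⁻¹) *
        bz n L v w)
    (hBZ : ∀ (L : ℝ) (v : Sp n), 1 ≤ L →
      ∫⁻ w : Sp n, ENNReal.ofReal (bz n L v w) ∂(sg n) ≤ ENNReal.ofReal C₁)
    (L lam Lam M t B ε : ℝ) (f : EE (n + 1) → ℂ) (hL : 1 ≤ L) (hlam : 0 < lam) (hLam : 0 < Lam) (hM0 : 0 < M)
    (hf : BCd B f) (hfs : ∀ x, f x ≠ 0 → L ^ 2 ≤ Lam * hor x)
    (hG : Measurable (fun q : Sp n × (ℝ × ℝ) => GT n L Lam f q.1 q.2))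
    (w : Sp n) (r z : ℝ) (hr : 0 < r) (hLr : L ^ 2 ≤ Lam * r) (hz : |z| ≤ ε) :
    ‖MM (mj2 n lam Lam M t) (AL L (AL L f)) (jo (r • (w : EE n)) z)‖ₑ ^ p ≤
      ENNReal.ofReal (C₂ ^ p * C₁ ^ (p - 1)) *
        (ENNReal.ofReal (r ^ (-(((n : ℝ) - 1) / 2 * p))) *
        ∫⁻ v : Sp n, ENNReal.ofReal (bz n L (w : EE n) (v : EE n)) *
          JJ2 n L lam Lam M t ε f v r z ^ p ∂(sg n)) := by
  have hp0 : 0 ≤ p := by linarith
  have hn1 : (1 : ℝ) ≤ n := by exact_mod_cast (by omega : 1 ≤ n)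
  set a : ℝ := ((n : ℝ) - 1) / 2 with ha
  have hJm : Measurable fun v : Sp n => JJ2 n L lam Lam M t ε f v r z :=
    (meas_JJ2 n L lam Lam M t ε f hG).comp
      (f := fun v : Sp n => (v, (z, r))) (by fun_prop)
  have hbm : Measurable fun v : Sp n => ENNReal.ofReal (bz n L (w : EE n) (v : EE n)) :=
    (meas_bz n L).comp (f := fun v : Sp n => (w, v)) (by fun_prop)
  have h1 : ‖((r ^ a : ℝ) : ℂ) * MM (mj2 n lam Lam M t) (AL L (AL L f)) (jo (r • (w : EE n)) z)‖ₑ ≤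
      ENNReal.ofReal C₂ * ∫⁻ v : Sp n, ENNReal.ofReal (bz n L (w : EE n) (v : EE n)) *
          JJ2 n L lam Lam M t ε f v r z ∂(sg n) := by
    rw [hRO n L lam Lam M t B r z f w hn hL hlam hLam hM0 hf hfs hr hLr]
    rw [← lintegral_const_mul' _ _ ENNReal.ofReal_ne_top]
    refine (enorm_integral_le_lintegral_enorm _).trans (lintegral_mono fun v => ?_)
    refine (enorm_integral_le_lintegral_enorm _).trans ?_
    unfold JJ2
    rw [← mul_assoc, ← lintegral_const_mul' _ _ (ENNReal.mul_ne_top ENNReal.ofReal_ne_top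
      ENNReal.ofReal_ne_top)]
    refine lintegral_mono fun x₁ => ?_
    rw [enorm_mul, ← mul_assoc]
    have hV : VV2 n L lam Lam M t ε f v (x₁, z) =
        ‖cv (KK2 t lam Lam M) (GT n L Lam f v) (x₁, z)‖ₑ :=
      indicator_of_mem (show (x₁, z) ∈ {x : ℝ × ℝ | |x.2| ≤ ε} from hz) _
    rw [hV]
    refine mul_le_mul' ?_ le_rfl
    rw [← ofReal_norm, RCLike.norm_conj, ← ENNReal.ofReal_mul hC₂, ← ENNReal.ofReal_mul
      (mul_nonneg hC₂ (bz_nonneg n L (by linarith) _ _))]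
    refine ENNReal.ofReal_le_ofReal ((hKW L Lam x₁ r w v hL hLam hLr).trans (le_of_eq ?_))
    ring
  have h2 : ENNReal.ofReal (r ^ a) *
      ‖MM (mj2 n lam Lam M t) (AL L (AL L f)) (jo (r • (w : EE n)) z)‖ₑ ≤
      ENNReal.ofReal C₂ * ∫⁻ v : Sp n, ENNReal.ofReal (bz n L (w : EE n) (v : EE n)) *
          JJ2 n L lam Lam M t ε f v r z ∂(sg n) := by
    refine le_trans (le_of_eq ?_) h1
    rw [enorm_mul]
    congr 1
    rw [← ofReal_norm, Complex.norm_real, Real.norm_of_nonneg (Real.rpow_nonneg hr.le _)]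
  have hra : 0 < r ^ a := Real.rpow_pos_of_pos hr _
  have h3 : ‖MM (mj2 n lam Lam M t) (AL L (AL L f)) (jo (r • (w : EE n)) z)‖ₑ ≤
      ENNReal.ofReal (r ^ (-a)) * (ENNReal.ofReal C₂ *
        ∫⁻ v : Sp n, ENNReal.ofReal (bz n L (w : EE n) (v : EE n)) *
          JJ2 n L lam Lam M t ε f v r z ∂(sg n)) := by
    refine le_trans (le_of_eq ?_) (mul_le_mul' le_rfl h2)
    rw [← mul_assoc, ← ENNReal.ofReal_mul (Real.rpow_nonneg hr.le _), ← Real.rpow_add hr,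
      neg_add_cancel, Real.rpow_zero, ENNReal.ofReal_one, one_mul]
  refine (ENNReal.rpow_le_rpow h3 hp0).trans ?_
  rw [ENNReal.mul_rpow_of_nonneg _ _ hp0, ENNReal.mul_rpow_of_nonneg _ _ hp0,
    ENNReal.ofReal_rpow_of_nonneg (Real.rpow_nonneg hr.le _) hp0, ← Real.rpow_mul hr.le,
    ENNReal.ofReal_rpow_of_nonneg hC₂ hp0]
  have h4 := jensen_w (sg n) _ _ hbm hJm p hp
  have h5 : (∫⁻ v : Sp n, ENNReal.ofReal (bz n L (w : EE n) (v : EE n)) ∂(sg n)) ^ (p - 1) ≤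
      ENNReal.ofReal (C₁ ^ (p - 1)) := by
    rw [← ENNReal.ofReal_rpow_of_nonneg hC₁ (by linarith)]
    exact ENNReal.rpow_le_rpow (hBZ L w hL) (by linarith)
  refine (mul_le_mul' le_rfl (mul_le_mul' le_rfl (h4.trans (mul_le_mul' h5 le_rfl)))).trans
    (le_of_eq ?_)
  rw [ENNReal.ofReal_mul (Real.rpow_nonneg hC₂ _), neg_mul]
  ring

/-- the main estimate -/
theorem main2 (hRO : T_RO2) (hKW : T_KW) (hBZ : T_BZ) (hGO : T_GO) (n : ℕ) (p : ℝ) (hn : 2 ≤ n)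
    (hp : 1 ≤ p) : ∃ K : ℝ≥0, ∀ (L lam Lam M t B ε : ℝ) (f : EE (n + 1) → ℂ) (R : Set ℝ),
    1 ≤ L → 0 < lam → 0 < Lam → 0 < M → BCd B f → (∀ x, f x ≠ 0 → L ^ 2 ≤ Lam * hor x) →
    MeasurableSet R → (∀ r ∈ R, 0 < r ∧ L ^ 2 ≤ Lam * r) →
    (Measurable (fun q : Sp n × (ℝ × ℝ) => GT n L Lam f q.1 q.2)) ∧
    ∫⁻ x in {x : EE (n + 1) | hor x ∈ R ∧ |x (Fin.last n)| ≤ ε}, ‖MM (mj2 n lam Lam M t) (AL L (AL L f)) x‖ₑ ^ p ≤
    K * ∫⁻ v : Sp n, (∫⁻ z : ℝ, ∫⁻ r in Ioi (0 : ℝ), JJ2 n L lam Lam M t ε f v r z ^ p *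
      R.indicator (fun r => ENNReal.ofReal (r ^ (-(((n : ℝ) - 1) * (p / 2 - 1))))) r)
        ∂(sg n) := by
  obtain ⟨C₁, hC₁⟩ := hBZ n hn
  obtain ⟨C₂, hC₂0, hC₂⟩ := hKW n 4 hn
  obtain ⟨⟨C₃, hC₃0, hC₃⟩, -⟩ := hGO n hn
  have hn1 : (1 : ℝ) ≤ n := by exact_mod_cast (by omega : 1 ≤ n)
  have hBZ' : ∀ (L : ℝ) (v : Sp n), 1 ≤ L →
      ∫⁻ w : Sp n, ENNReal.ofReal (bz n L v w) ∂(sg n) ≤ ENNReal.ofReal (C₁ : ℝ) := by
    intro L v hL
    rw [ENNReal.ofReal_coe_nnreal]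
    exact hC₁ L v hL
  refine ⟨(C₂ ^ p * (C₁ : ℝ) ^ (p - 1)).toNNReal * C₁, ?_⟩
  intro L lam Lam M t B ε f R hL hlam hLam hM0 hf hfs hR hRp
  have hG : Measurable (fun q : Sp n × (ℝ × ℝ) => GT n L Lam f q.1 q.2) := by
    obtain ⟨hfm, hfB, R', hR'⟩ := hf
    have hA : ∀ x : EE (n + 1), hor x ^ (((n : ℝ) - 1) / 2) * ‖f x‖ ≤
        |R'| ^ (((n : ℝ) - 1) / 2) * |B| := by
      intro x
      by_cases hx : f x = 0
      · rw [hx, norm_zero, mul_zero]
        positivity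
      · have h1 : ‖x‖ ≤ R' := by
          by_contra hc
          push Not at hc
          exact hx (hR' x hc)
        refine mul_le_mul ?_ ((hfB x).trans (le_abs_self B)) (norm_nonneg _) (by positivity)
        exact Real.rpow_le_rpow (Pool.Agent.H54.LS.hor_nonneg x)
          ((hor_le_norm x).trans (h1.trans (le_abs_self R'))) (by linarith)
    exact (hC₃ L Lam _ B f hL hLam ⟨hfm, hfB, R', hR'⟩ hfs hA).1
  refine ⟨hG, ?_⟩
  have hpt := ptw2 hRO n p C₁ C₂ hn hp C₁.2 hC₂0 (fun L Lam x r v w h1 h2 h3 =>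
    (hC₂ L Lam x r v w h1 h2 h3).2) hBZ' L lam Lam M t B ε f hL hlam hLam hM0 hf hfs hG
  set u : EE (n + 1) → ℝ≥0∞ := fun x => ‖MM (mj2 n lam Lam M t) (AL L (AL L f)) x‖ₑ ^ p with hu
  have hum : Measurable u := ((meas_MM _ _ (meas_mj2 n lam Lam M t)
    (meas_AL L _ (meas_AL L f hf.1))).enorm).pow_const p
  have hS : MeasurableSet {x : EE (n + 1) | hor x ∈ R ∧ |x (Fin.last n)| ≤ ε} :=
    (continuous_hor.measurable hR).inter (measurableSet_le
      (f := fun x : EE (n + 1) => |x (Fin.last n)|) (g := fun _ => ε) (by fun_prop)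
      measurable_const)
  set W : ℝ → ℝ≥0∞ :=
    R.indicator (fun r => ENNReal.ofReal (r ^ (-(((n : ℝ) - 1) * (p / 2 - 1))))) with hW
  have hWm : Measurable W := by
    refine Measurable.indicator ?_ hR
    fun_prop
  set K₀ : ℝ≥0∞ := ENNReal.ofReal (C₂ ^ p * (C₁ : ℝ) ^ (p - 1)) with hK₀
  have hcoe : (((C₂ ^ p * (C₁ : ℝ) ^ (p - 1)).toNNReal * C₁ : ℝ≥0) : ℝ≥0∞) = K₀ * C₁ := by
    rw [ENNReal.coe_mul]
    rfl
  rw [hcoe]
  have hbw : ∀ w : Sp n, Measurable fun v : Sp n =>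
      ENNReal.ofReal (bz n L (w : EE n) (v : EE n)) := fun w =>
    (meas_bz n L).comp (f := fun v : Sp n => (w, v)) (by fun_prop)
  have hJm := meas_JJ2 n L lam Lam M t ε f hG
  set Mu : Measure (ℝ × ℝ) := (volume : Measure ℝ).prod (volume.restrict (Ioi (0 : ℝ))) with hMu
  have hH : Measurable fun q : Sp n × (ℝ × ℝ) => JJ2 n L lam Lam M t ε f q.1 q.2.2 q.2.1 ^ p * W q.2.2 :=
    (hJm.pow_const p).mul (hWm.comp (f := fun q : Sp n × (ℝ × ℝ) => q.2.2) (by fun_prop))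
  have hΨ : ∀ v : Sp n, (∫⁻ z : ℝ, ∫⁻ r in Ioi (0 : ℝ), JJ2 n L lam Lam M t ε f v r z ^ p * W r) =
      ∫⁻ q, JJ2 n L lam Lam M t ε f v q.2 q.1 ^ p * W q.2 ∂Mu := by
    intro v
    have h1 : Measurable fun q : ℝ × ℝ => JJ2 n L lam Lam M t ε f v q.2 q.1 ^ p * W q.2 :=
      hH.comp (f := fun q : ℝ × ℝ => (v, q)) (by fun_prop)
    rw [hMu, lintegral_prod _ h1.aemeasurable]
  have hΨm : Measurable fun v : Sp n =>
      ∫⁻ q, JJ2 n L lam Lam M t ε f v q.2 q.1 ^ p * W q.2 ∂Mu := hH.lintegral_prod_right'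
  calc ∫⁻ x in {x : EE (n + 1) | hor x ∈ R ∧ |x (Fin.last n)| ≤ ε}, u x
      = ∫⁻ x, {x : EE (n + 1) | hor x ∈ R ∧ |x (Fin.last n)| ≤ ε}.indicator u x := (lintegral_indicator hS _).symm
    _ = ∫⁻ w : Sp n, (∫⁻ z : ℝ, ∫⁻ r in Ioi (0 : ℝ), ENNReal.ofReal (r ^ (n - 1)) *
          {x : EE (n + 1) | hor x ∈ R ∧ |x (Fin.last n)| ≤ ε}.indicator u (jo (r • (w : EE n)) z)) ∂(sg n) :=
        lint_cyl n (by omega) _ (hum.indicator hS)
    _ ≤ ∫⁻ w : Sp n, (∫⁻ z : ℝ, ∫⁻ r in Ioi (0 : ℝ), K₀ * ∫⁻ v : Sp n,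
          ENNReal.ofReal (bz n L (w : EE n) (v : EE n)) *
            (JJ2 n L lam Lam M t ε f v r z ^ p * W r) ∂(sg n)) ∂(sg n) := by
        refine lintegral_mono fun w => lintegral_mono fun z => ?_
        refine setLIntegral_mono' measurableSet_Ioi fun r hr => ?_
        have hr0 : 0 < r := hr
        have hhor : hor (jo (r • (w : EE n)) z) = r := hor_cyl w ⟨r, hr⟩ z
        by_cases hrR : r ∈ R ∧ |z| ≤ ε
        · have h1 : jo (r • (w : EE n)) z ∈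
              {x : EE (n + 1) | hor x ∈ R ∧ |x (Fin.last n)| ≤ ε} := by
            show hor (jo (r • (w : EE n)) z) ∈ R ∧ |(jo (r • (w : EE n)) z) (Fin.last n)| ≤ ε
            rw [hhor, jo_last]
            exact hrR
          rw [indicator_of_mem h1]
          refine (mul_le_mul' le_rfl (hpt w r z hr0 (hRp r hrR.1).2 hrR.2)).trans (le_of_eq ?_)
          have h2 : W r = ENNReal.ofReal (r ^ (-(((n : ℝ) - 1) * (p / 2 - 1)))) :=
            indicator_of_mem hrR.1 _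
          have h3 : ENNReal.ofReal (r ^ (n - 1)) *
              ENNReal.ofReal (r ^ (-(((n : ℝ) - 1) / 2 * p))) = W r := by
            rw [h2, ← ENNReal.ofReal_mul (by positivity), ← Real.rpow_natCast,
              ← Real.rpow_add hr0]
            congr 2
            rw [Nat.cast_sub (by omega)]
            push_cast
            ring
          have h4 : ∀ v : Sp n, ENNReal.ofReal (bz n L (w : EE n) (v : EE n)) *
              (JJ2 n L lam Lam M t ε f v r z ^ p * W r) =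
              W r * (ENNReal.ofReal (bz n L (w : EE n) (v : EE n)) *
                JJ2 n L lam Lam M t ε f v r z ^ p) := by
            intro v
            ring
          simp_rw [h4]
          rw [lintegral_const_mul' _ _ (by rw [h2]; exact ENNReal.ofReal_ne_top), ← h3]
          ring
        · have h1 : jo (r • (w : EE n)) z ∉
              {x : EE (n + 1) | hor x ∈ R ∧ |x (Fin.last n)| ≤ ε} := by
            show ¬ (hor (jo (r • (w : EE n)) z) ∈ R ∧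
              |(jo (r • (w : EE n)) z) (Fin.last n)| ≤ ε)
            rw [hhor, jo_last]
            exact hrR
          rw [indicator_of_notMem h1, mul_zero]
          exact zero_le
    _ = ∫⁻ w : Sp n, (K₀ * ∫⁻ v : Sp n, ENNReal.ofReal (bz n L (w : EE n) (v : EE n)) *
          (∫⁻ q, JJ2 n L lam Lam M t ε f v q.2 q.1 ^ p * W q.2 ∂Mu) ∂(sg n)) ∂(sg n) := by
        refine lintegral_congr fun w => ?_
        have h1 : Measurable fun q : (ℝ × ℝ) × Sp n =>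
            ENNReal.ofReal (bz n L (w : EE n) (q.2 : EE n)) *
              (JJ2 n L lam Lam M t ε f q.2 q.1.2 q.1.1 ^ p * W q.1.2) := by
          refine Measurable.mul ?_ ?_
          · exact (hbw w).comp measurable_snd
          · exact hH.comp (f := fun q : (ℝ × ℝ) × Sp n => (q.2, q.1)) (by fun_prop)
        have h2 : Measurable fun q : ℝ × ℝ => ∫⁻ v : Sp n,
            ENNReal.ofReal (bz n L (w : EE n) (v : EE n)) *
              (JJ2 n L lam Lam M t ε f v q.2 q.1 ^ p * W q.2) ∂(sg n) := h1.lintegral_prod_right'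
        have h3 : (∫⁻ z : ℝ, ∫⁻ r in Ioi (0 : ℝ), K₀ * ∫⁻ v : Sp n,
            ENNReal.ofReal (bz n L (w : EE n) (v : EE n)) *
              (JJ2 n L lam Lam M t ε f v r z ^ p * W r) ∂(sg n)) =
            ∫⁻ q, K₀ * ∫⁻ v : Sp n, ENNReal.ofReal (bz n L (w : EE n) (v : EE n)) *
              (JJ2 n L lam Lam M t ε f v q.2 q.1 ^ p * W q.2) ∂(sg n) ∂Mu := by
          rw [hMu, lintegral_prod _ (h2.const_mul K₀).aemeasurable]
        rw [h3, lintegral_const_mul _ h2]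
        congr 1
        rw [lintegral_lintegral_swap (f := fun (q : ℝ × ℝ) (v : Sp n) =>
          ENNReal.ofReal (bz n L (w : EE n) (v : EE n)) *
              (JJ2 n L lam Lam M t ε f v q.2 q.1 ^ p * W q.2)) h1.aemeasurable]
        refine lintegral_congr fun v => ?_
        rw [lintegral_const_mul' _ _ ENNReal.ofReal_ne_top]
    _ = K₀ * ∫⁻ w : Sp n, (∫⁻ v : Sp n, ENNReal.ofReal (bz n L (w : EE n) (v : EE n)) *
          (∫⁻ q, JJ2 n L lam Lam M t ε f v q.2 q.1 ^ p * W q.2 ∂Mu) ∂(sg n)) ∂(sg n) :=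
        lintegral_const_mul' _ _ ENNReal.ofReal_ne_top
    _ = K₀ * ∫⁻ v : Sp n, (∫⁻ w : Sp n, ENNReal.ofReal (bz n L (w : EE n) (v : EE n)) *
          (∫⁻ q, JJ2 n L lam Lam M t ε f v q.2 q.1 ^ p * W q.2 ∂Mu) ∂(sg n)) ∂(sg n) := by
        congr 1
        refine lintegral_lintegral_swap (f := fun (w v : Sp n) =>
          ENNReal.ofReal (bz n L (w : EE n) (v : EE n)) *
          (∫⁻ q, JJ2 n L lam Lam M t ε f v q.2 q.1 ^ p * W q.2 ∂Mu)) ?_
        exact ((meas_bz n L).mul (hΨm.comp measurable_snd)).aemeasurable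
    _ ≤ K₀ * ∫⁻ v : Sp n, (C₁ : ℝ≥0∞) *
          (∫⁻ q, JJ2 n L lam Lam M t ε f v q.2 q.1 ^ p * W q.2 ∂Mu) ∂(sg n) := by
        refine mul_le_mul' le_rfl (lintegral_mono fun v => ?_)
        have h1 : Measurable fun w : Sp n => ENNReal.ofReal (bz n L (w : EE n) (v : EE n)) :=
          (meas_bz n L).comp (f := fun w : Sp n => (w, v)) (by fun_prop)
        rw [lintegral_mul_const _ h1]
        refine mul_le_mul' ?_ le_rfl
        simp_rw [bz_symm n L _ (v : EE n)]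
        exact hC₁ L v hL
    _ = K₀ * C₁ * ∫⁻ v : Sp n, (∫⁻ z : ℝ, ∫⁻ r in Ioi (0 : ℝ),
          JJ2 n L lam Lam M t ε f v r z ^ p * W r) ∂(sg n) := by
        rw [lintegral_const_mul' _ _ ENNReal.coe_ne_top, mul_assoc]
        congr 2
        refine lintegral_congr fun v => ?_
        rw [hΨ v]

/-- module PA -/
theorem pf_pa2 (hRO : T_RO2) (hKW : T_KW) (hBZ : T_BZ) (hWR : T_WRED) (hGO : T_GO) : T_PA2 := by
  intro n p hn hp hβ1 hβ0
  obtain ⟨K, hK⟩ := main2 hRO hKW hBZ hGO n p hn hp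
  obtain ⟨D₁, hD₁⟩ := hWR p (((n : ℝ) - 1) * (p / 2 - 1)) hp hβ0 hβ1
  obtain ⟨D₂, hD₂⟩ := hWR p 0 hp le_rfl one_pos
  refine ⟨K * (D₁ + D₂), ?_⟩
  intro L lam Lam M t B ε f R hL hlam hLam hM0 hf hfs hR hRp
  obtain ⟨hG, hmain⟩ := hK L lam Lam M t B ε f R hL hlam hLam hM0 hf hfs hR hRp
  have hV : ∀ v : Sp n, Measurable fun x : ℝ × ℝ => VV2 n L lam Lam M t ε f v x := fun v =>
    (meas_VV2 n L lam Lam M t ε f hG).comp (f := fun x : ℝ × ℝ => (v, x)) (by fun_prop)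
  refine ⟨?_, ?_⟩
  · refine hmain.trans ?_
    rw [ENNReal.coe_mul, mul_assoc]
    refine mul_le_mul' le_rfl ?_
    calc ∫⁻ v : Sp n, (∫⁻ z : ℝ, ∫⁻ r in Ioi (0 : ℝ), JJ2 n L lam Lam M t ε f v r z ^ p *
      R.indicator (fun r => ENNReal.ofReal (r ^ (-(((n : ℝ) - 1) * (p / 2 - 1))))) r) ∂(sg n)
        ≤ ∫⁻ v : Sp n, (D₁ : ℝ≥0∞) * (∫⁻ x : ℝ × ℝ, VV2 n L lam Lam M t ε f v x ^ p *
            ENNReal.ofReal ((|x.1| + 1 / Lam) ^ (-(((n : ℝ) - 1) * (p / 2 - 1))))) ∂(sg n) := by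
          refine lintegral_mono fun v => ?_
          refine le_trans ?_ (hD₁ Lam (VV2 n L lam Lam M t ε f v) hLam (hV v))
          refine lintegral_mono fun z => lintegral_mono fun r => ?_
          unfold JJ2
          refine mul_le_mul' le_rfl ?_
          exact indicator_le_self' (fun _ _ => zero_le) r
      _ ≤ _ := by
          rw [lintegral_const_mul' _ _ ENNReal.coe_ne_top]
          refine mul_le_mul' ?_ (le_of_eq ?_)
          · rw [ENNReal.coe_add]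
            exact le_self_add
          · exact lintegral_congr fun v => lint_VV2 n L lam Lam M t ε f v p (by linarith) _
  · intro D hD hRD
    refine hmain.trans ?_
    rw [ENNReal.coe_mul, mul_assoc, mul_assoc]
    refine mul_le_mul' le_rfl ?_
    calc ∫⁻ v : Sp n, (∫⁻ z : ℝ, ∫⁻ r in Ioi (0 : ℝ), JJ2 n L lam Lam M t ε f v r z ^ p *
      R.indicator (fun r => ENNReal.ofReal (r ^ (-(((n : ℝ) - 1) * (p / 2 - 1))))) r) ∂(sg n)
        ≤ ∫⁻ v : Sp n, (ENNReal.ofReal (D ^ (-(((n : ℝ) - 1) * (p / 2 - 1)))) * D₂) *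
            (∫⁻ x : ℝ × ℝ, VV2 n L lam Lam M t ε f v x ^ p) ∂(sg n) := by
          refine lintegral_mono fun v => ?_
          have h1 := hD₂ Lam (VV2 n L lam Lam M t ε f v) hLam (hV v)
          simp only [neg_zero, Real.rpow_zero, ENNReal.ofReal_one, mul_one] at h1
          rw [mul_assoc]
          refine le_trans ?_ (mul_le_mul' le_rfl h1)
          rw [← lintegral_const_mul' _ _ ENNReal.ofReal_ne_top]
          refine lintegral_mono fun z => ?_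
          rw [← lintegral_const_mul' _ _ ENNReal.ofReal_ne_top]
          refine lintegral_mono fun r => ?_
          show JJ2 n L lam Lam M t ε f v r z ^ p * _ ≤ _ * JJ2 n L lam Lam M t ε f v r z ^ p
          rw [mul_comm]
          refine mul_le_mul' ?_ le_rfl
          by_cases hr : r ∈ R
          · rw [indicator_of_mem hr]
            refine ENNReal.ofReal_le_ofReal ?_
            exact Real.rpow_le_rpow_of_nonpos hD (hRD r hr) (by linarith)
          · rw [indicator_of_notMem hr]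
            exact zero_le
      _ ≤ _ := by
          rw [lintegral_const_mul' _ _ (ENNReal.mul_ne_top ENNReal.ofReal_ne_top
            ENNReal.coe_ne_top), ← mul_assoc]
          refine mul_le_mul' ?_ (le_of_eq ?_)
          · rw [mul_comm, ENNReal.coe_add]
            exact mul_le_mul' le_add_self le_rfl
          · refine lintegral_congr fun v => ?_
            have h2 := lint_VV2 n L lam Lam M t ε f v p (by linarith) (fun _ => 1)
            simpa only [mul_one] using h2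

end Pool.Agent.H42.BR
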