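import Pool.Agent.H83.AR.Targets3
import Pool.Agent.H42.BR.SWF

/-! Module PAm: back from `ℝ^(a+1)`, `L^p` norms with weights. -/

set_option autoImplicit false

namespace Pool.Agent.H42.BR

open MeasureTheory Set FourierTransform
open Pool.Agent.H83.AR Pool.Agent.H93.AR Pool.Agent.H83.LS Pool.Agent.H54.LS Pool.Agent.H14.LS
open scoped ENNReal NNReal

/-- cylindrical coordinates, second block -/
theorem lint_cylm (hJM : T_JM) (a b : ℕ) (hb : 1 ≤ b) (h : EE (a + b) → ℝ≥0∞)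
    (hh : Measurable h) :
    ∫⁻ x, h x = ∫⁻ w : Sp b, (∫⁻ y : EE a, ∫⁻ r in Ioi (0 : ℝ),
      ENNReal.ofReal (r ^ (b - 1)) * h (jm a b y (r • (w : EE b)))) ∂(sg b) := by
  obtain ⟨-, -, -, -, -, -, -, -, -, -, hcyl, -, -, -⟩ := hJM a b
  have hmp := hcyl hb
  have hm2 : Measurable fun q : Sp b × (Ioi (0 : ℝ) × EE a) =>
      h (jm a b q.2.2 ((q.2.1 : ℝ) • (q.1 : EE b))) := hh.comp hmp.measurable
  rw [← hmp.lintegral_comp hh, lintegral_prod _ hm2.aemeasurable]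
  refine lintegral_congr fun w => ?_
  have hm3 : Measurable fun q : Ioi (0 : ℝ) × EE a =>
      h (jm a b q.2 ((q.1 : ℝ) • (w : EE b))) := hm2.comp measurable_prodMk_left
  rw [lintegral_prod_symm _ hm3.aemeasurable]
  refine lintegral_congr fun y => ?_
  have hm1 : Measurable fun t : Ioi (0 : ℝ) => ENNReal.ofReal (t.1 ^ (b - 1)) :=
    ENNReal.measurable_ofReal.comp (measurable_subtype_coe.pow_const _)
  have hm4 : Measurable fun t : Ioi (0 : ℝ) => h (jm a b y ((t : ℝ) • (w : EE b))) :=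
    hm3.comp measurable_prodMk_right
  show ∫⁻ t : Ioi (0 : ℝ), h (jm a b y ((t : ℝ) • (w : EE b)))
    ∂(Measure.volumeIoiPow (b - 1)) = _
  rw [Measure.volumeIoiPow, lintegral_withDensity_eq_lintegral_mul _ hm1 hm4]
  exact lintegral_subtype_comap measurableSet_Ioi
    (fun t : ℝ => ENNReal.ofReal (t ^ (b - 1)) * h (jm a b y (t • (w : EE b))))

theorem meas_chis' : Measurable chis := by
  unfold chis
  exact (meas_eta0.comp (by fun_prop)).sub (meas_eta0.comp (by fun_prop))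

theorem meas_mT {d : ℕ} (lam t : ℝ) : Measurable (mT (d := d) lam t) := by
  unfold mT
  exact Measurable.mul (meas_e.comp (by fun_prop))
    (Complex.measurable_ofReal.comp (meas_chi.comp (by fun_prop)))

theorem meas_mS (a : ℕ) (lam M t : ℝ) : Measurable (mS a lam M t) := by
  unfold mS
  exact (meas_mT lam t).mul (Complex.measurable_ofReal.comp (meas_chis'.comp (by fun_prop)))

theorem meas_m2 (hJM : T_JM) (a b : ℕ) (lam Lam t : ℝ) : Measurable (m2 a b lam Lam t) := by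
  obtain ⟨-, -, -, -, -, -, hp2, -⟩ := hJM a b
  unfold m2
  refine (meas_mT lam t).mul (Complex.measurable_ofReal.comp (meas_chi.comp ?_))
  exact (hp2.norm.measurable).div_const _

theorem meas_A2 (hJM : T_JM) (a b : ℕ) (L : ℝ) (f : EE (a + b) → ℂ) (hf : Measurable f) :
    Measurable (A2 a b L f) := by
  obtain ⟨-, -, -, -, hjm, hp1, hp2, -⟩ := hJM a b
  have h1 : StronglyMeasurable (Function.uncurry fun (x : EE (a + b)) (w : Sp b) =>
      ((zk b L (‖p2 a b x‖⁻¹ • p2 a b x) (w : EE b) : ℝ) : ℂ) *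
        f (jm a b (p1 a b x) (‖p2 a b x‖ • (w : EE b)))) := by
    apply Measurable.stronglyMeasurable
    refine Measurable.mul ?_ ?_
    · refine Complex.measurable_ofReal.comp ?_
      refine (meas_zk b L).comp
        (f := fun q : EE (a + b) × Sp b => (‖p2 a b q.1‖⁻¹ • p2 a b q.1, (q.2 : EE b))) ?_
      refine Measurable.prodMk ?_ (measurable_subtype_coe.comp measurable_snd)
      exact ((hp2.norm.measurable.comp measurable_fst).inv).smul
        (hp2.measurable.comp measurable_fst)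
    · refine hf.comp ?_
      refine hjm.measurable.comp (f := fun q : EE (a + b) × Sp b =>
        (p1 a b q.1, ‖p2 a b q.1‖ • (q.2 : EE b))) ?_
      refine Measurable.prodMk (hp1.measurable.comp measurable_fst) ?_
      exact (hp2.norm.measurable.comp measurable_fst).smul
        (measurable_subtype_coe.comp measurable_snd)
  exact (StronglyMeasurable.integral_prod_right (ν := sg b) h1).measurable

/-- the function integrated on `ℝ^(a+1)` -/
noncomputable def VVm (a b : ℕ) (L lam Lam t : ℝ) (f : EE (a + b) → ℂ) (v : Sp b)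
    (X : EE (a + 1)) : ℝ≥0∞ := ‖MM (mS a lam Lam t) (GM a b L Lam f v) X‖ₑ

/-- the weighted line integrals -/
noncomputable def JJm (a b : ℕ) (L lam Lam t : ℝ) (f : EE (a + b) → ℂ) (v : Sp b) (r : ℝ)
    (y : EE a) : ℝ≥0∞ := ∫⁻ x₁ : ℝ, ENNReal.ofReal
      (Lam * (((1 + |Lam * x₁ - Lam * r|) ^ 4)⁻¹ + ((1 + |Lam * x₁ + Lam * r|) ^ 4)⁻¹)) *
      VVm a b L lam Lam t f v (jo y x₁)

theorem meas_VVm (a b : ℕ) (L lam Lam t : ℝ) (f : EE (a + b) → ℂ)
    (hG : Measurable (fun q : Sp b × EE (a + 1) => GM a b L Lam f q.1 q.2)) :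
    Measurable fun q : Sp b × EE (a + 1) => VVm a b L lam Lam t f q.1 q.2 := by
  have h0 : Measurable fun q : Sp b × EE (a + 1) => (𝓕 (GM a b L Lam f q.1)) q.2 := by
    have e0 : (fun q : Sp b × EE (a + 1) => (𝓕 (GM a b L Lam f q.1)) q.2) =
        fun q => ∫ u, e (-(inner ℝ u q.2)) * GM a b L Lam f q.1 u := by
      funext q
      exact F_eq _ _
    rw [e0]
    have h1 : StronglyMeasurable (Function.uncurry fun (q : Sp b × EE (a + 1))
        (u : EE (a + 1)) => e (-(inner ℝ u q.2)) * GM a b L Lam f q.1 u) := by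
      apply Measurable.stronglyMeasurable
      refine Measurable.mul ?_ ?_
      · exact meas_e.comp (f := fun r : (Sp b × EE (a + 1)) × EE (a + 1) =>
          -(inner ℝ r.2 r.1.2)) (by fun_prop)
      · exact hG.comp (f := fun r : (Sp b × EE (a + 1)) × EE (a + 1) => (r.1.1, r.2))
          (by fun_prop)
    exact (StronglyMeasurable.integral_prod_right (ν := volume) h1).measurable
  unfold VVm MM
  have h2 : StronglyMeasurable (Function.uncurry fun (q : Sp b × EE (a + 1))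
      (ξ : EE (a + 1)) => e (inner ℝ q.2 ξ) *
        (mS a lam Lam t ξ * (𝓕 (GM a b L Lam f q.1)) ξ)) := by
    apply Measurable.stronglyMeasurable
    refine Measurable.mul ?_ (Measurable.mul ?_ ?_)
    · exact meas_e.comp (f := fun r : (Sp b × EE (a + 1)) × EE (a + 1) =>
        inner ℝ r.1.2 r.2) (by fun_prop)
    · exact (meas_mS a lam Lam t).comp measurable_snd
    · exact h0.comp (f := fun r : (Sp b × EE (a + 1)) × EE (a + 1) => (r.1.1, r.2))
        (by fun_prop)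
  exact (StronglyMeasurable.integral_prod_right (ν := volume) h2).measurable.enorm

theorem meas_JJm (a b : ℕ) (L lam Lam t : ℝ) (f : EE (a + b) → ℂ)
    (hG : Measurable (fun q : Sp b × EE (a + 1) => GM a b L Lam f q.1 q.2)) :
    Measurable fun q : Sp b × (EE a × ℝ) => JJm a b L lam Lam t f q.1 q.2.2 q.2.1 := by
  unfold JJm
  have h2 : Measurable fun q : (Sp b × (EE a × ℝ)) × ℝ => ENNReal.ofReal
      (Lam * (((1 + |Lam * q.2 - Lam * q.1.2.2|) ^ 4)⁻¹ +
        ((1 + |Lam * q.2 + Lam * q.1.2.2|) ^ 4)⁻¹)) := by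
    refine ENNReal.measurable_ofReal.comp (f := fun q : (Sp b × (EE a × ℝ)) × ℝ =>
      (Lam * (((1 + |Lam * q.2 - Lam * q.1.2.2|) ^ 4)⁻¹ +
        ((1 + |Lam * q.2 + Lam * q.1.2.2|) ^ 4)⁻¹))) ?_
    fun_prop
  have h1 : Measurable (Function.uncurry fun (q : Sp b × (EE a × ℝ)) (x₁ : ℝ) =>
      ENNReal.ofReal
      (Lam * (((1 + |Lam * x₁ - Lam * q.2.2|) ^ 4)⁻¹ + ((1 + |Lam * x₁ + Lam * q.2.2|) ^ 4)⁻¹)) *
      VVm a b L lam Lam t f q.1 (jo q.2.1 x₁)) := by
    refine Measurable.mul h2 ?_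
    refine (meas_VVm a b L lam Lam t f hG).comp
      (f := fun r : (Sp b × (EE a × ℝ)) × ℝ => (r.1.1, jo r.1.2.1 r.2)) ?_
    refine Measurable.prodMk (by fun_prop) ?_
    exact continuous_jo.measurable.comp
      (f := fun r : (Sp b × (EE a × ℝ)) × ℝ => (r.1.2.1, r.2)) (by fun_prop)
  exact h1.lintegral_prod_right'

/-- one dimensional form of `T_WRED` -/
theorem wred1 (p β : ℝ) (C : ℝ≥0) (hp : 1 ≤ p)
    (h : ∀ (Lam : ℝ) (V : ℝ × ℝ → ℝ≥0∞), 0 < Lam → Measurable V →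
      ∫⁻ z : ℝ, ∫⁻ r in Ioi (0 : ℝ), (∫⁻ x₁ : ℝ, ENNReal.ofReal
      (Lam * (((1 + |Lam * x₁ - Lam * r|) ^ 4)⁻¹ + ((1 + |Lam * x₁ + Lam * r|) ^ 4)⁻¹)) *
      V (x₁, z)) ^ p * ENNReal.ofReal (r ^ (-β)) ≤
      C * ∫⁻ x : ℝ × ℝ, V x ^ p * ENNReal.ofReal ((|x.1| + 1 / Lam) ^ (-β)))
    (Lam : ℝ) (V : ℝ → ℝ≥0∞) (hLam : 0 < Lam) (hV : Measurable V) :
    ∫⁻ r in Ioi (0 : ℝ), (∫⁻ x₁ : ℝ, ENNReal.ofReal
      (Lam * (((1 + |Lam * x₁ - Lam * r|) ^ 4)⁻¹ + ((1 + |Lam * x₁ + Lam * r|) ^ 4)⁻¹)) *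
      V x₁) ^ p * ENNReal.ofReal (r ^ (-β)) ≤
      C * ∫⁻ x₁ : ℝ, V x₁ ^ p * ENNReal.ofReal ((|x₁| + 1 / Lam) ^ (-β)) := by
  have hp0 : 0 < p := by linarith
  set W : ℝ × ℝ → ℝ≥0∞ := fun x => (Icc (0 : ℝ) 1).indicator (fun _ => V x.1) x.2 with hW
  have hWm : Measurable W := by
    have e1 : W = (Prod.snd ⁻¹' (Icc (0 : ℝ) 1)).indicator (fun x : ℝ × ℝ => V x.1) := rfl
    rw [e1]
    exact (hV.comp measurable_fst).indicator (measurableSet_Icc.preimage measurable_snd)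
  have h1 := h Lam W hLam hWm
  have hW1 : ∀ x₁ z : ℝ, z ∈ Icc (0 : ℝ) 1 → W (x₁, z) = V x₁ := fun x₁ z hz =>
    indicator_of_mem hz _
  have hW0 : ∀ x₁ z : ℝ, z ∉ Icc (0 : ℝ) 1 → W (x₁, z) = 0 := fun x₁ z hz =>
    indicator_of_notMem hz _
  set Q : ℝ≥0∞ := ∫⁻ r in Ioi (0 : ℝ), (∫⁻ x₁ : ℝ, ENNReal.ofReal
      (Lam * (((1 + |Lam * x₁ - Lam * r|) ^ 4)⁻¹ + ((1 + |Lam * x₁ + Lam * r|) ^ 4)⁻¹)) *
      V x₁) ^ p * ENNReal.ofReal (r ^ (-β)) with hQ
  have hL : ∀ z : ℝ, (∫⁻ r in Ioi (0 : ℝ), (∫⁻ x₁ : ℝ, ENNReal.ofReal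
      (Lam * (((1 + |Lam * x₁ - Lam * r|) ^ 4)⁻¹ + ((1 + |Lam * x₁ + Lam * r|) ^ 4)⁻¹)) *
      W (x₁, z)) ^ p * ENNReal.ofReal (r ^ (-β))) =
      (Icc (0 : ℝ) 1).indicator (fun _ => Q) z := by
    intro z
    by_cases hz : z ∈ Icc (0 : ℝ) 1
    · rw [indicator_of_mem hz]
      simp_rw [hW1 _ z hz]
      rfl
    · rw [indicator_of_notMem hz]
      simp_rw [hW0 _ z hz]
      simp only [mul_zero, lintegral_const, zero_mul, ENNReal.zero_rpow_of_pos hp0]
  simp_rw [hL] at h1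
  rw [lintegral_indicator_const measurableSet_Icc, Real.volume_Icc, sub_zero,
    ENNReal.ofReal_one, mul_one] at h1
  refine h1.trans (mul_le_mul' le_rfl (le_of_eq ?_))
  have hR : ∀ x : ℝ × ℝ, W x ^ p * ENNReal.ofReal ((|x.1| + 1 / Lam) ^ (-β)) =
      (V x.1 ^ p * ENNReal.ofReal ((|x.1| + 1 / Lam) ^ (-β))) *
        (Icc (0 : ℝ) 1).indicator 1 x.2 := by
    rintro ⟨x₁, z⟩
    by_cases hz : z ∈ Icc (0 : ℝ) 1
    · rw [hW1 _ _ hz, indicator_of_mem hz, Pi.one_apply, mul_one]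
    · rw [hW0 _ _ hz, indicator_of_notMem hz, mul_zero, ENNReal.zero_rpow_of_pos hp0, zero_mul]
  simp_rw [hR]
  have hwm : Measurable fun x₁ : ℝ => V x₁ ^ p * ENNReal.ofReal ((|x₁| + 1 / Lam) ^ (-β)) := by
    refine (hV.pow_const p).mul (ENNReal.measurable_ofReal.comp ?_)
    fun_prop
  rw [Measure.volume_eq_prod, lintegral_prod_mul hwm.aemeasurable
    ((measurable_one.indicator measurableSet_Icc).aemeasurable),
    lintegral_indicator_one measurableSet_Icc, Real.volume_Icc, sub_zero, ENNReal.ofReal_one,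
    mul_one]

/-- the pointwise bound -/
theorem ptwm (hRO : T_ROm) (a b : ℕ) (p C₁ C₂ : ℝ) (ha : 1 ≤ a) (hb : 2 ≤ b) (hp : 1 ≤ p) (hC₁ : 0 ≤ C₁)
    (hC₂ : 0 ≤ C₂)
    (hKW : ∀ (L Lam x r : ℝ) (v w : Sp b), 1 ≤ L → 0 < Lam → L ^ 2 ≤ Lam * r →
      ‖((Lam : ℝ) : ℂ) * kz b L (fun s => ((chis s : ℝ) : ℂ)) (Lam * x) (Lam * r) v w‖ ≤
      C₂ * Lam * (((1 + |Lam * x - Lam * r|) ^ 4)⁻¹ + ((1 + |Lam * x + Lam * r|) ^ 4)⁻¹) *
        bz b L v w)
    (hBZ : ∀ (L : ℝ) (v : Sp b), 1 ≤ L →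
      ∫⁻ w : Sp b, ENNReal.ofReal (bz b L v w) ∂(sg b) ≤ ENNReal.ofReal C₁)
    (L lam Lam t B : ℝ) (f : EE (a + b) → ℂ) (hL : 1 ≤ L) (hlam : 0 < lam) (hLam : 0 < Lam)
    (hf : BCd B f) (hfs : ∀ x, f x ≠ 0 → L ^ 2 ≤ Lam * ‖p2 a b x‖)
    (hG : Measurable (fun q : Sp b × EE (a + 1) => GM a b L Lam f q.1 q.2))
    (w : Sp b) (r : ℝ) (y : EE a) (hr : 0 < r) (hLr : L ^ 2 ≤ Lam * r) :
    ‖MM (m2 a b lam Lam t) (A2 a b L (A2 a b L f)) (jm a b y (r • (w : EE b)))‖ₑ ^ p ≤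
      ENNReal.ofReal (C₂ ^ p * C₁ ^ (p - 1)) *
        (ENNReal.ofReal (r ^ (-(((b : ℝ) - 1) / 2 * p))) *
        ∫⁻ v : Sp b, ENNReal.ofReal (bz b L (w : EE b) (v : EE b)) *
          JJm a b L lam Lam t f v r y ^ p ∂(sg b)) := by
  have hp0 : 0 ≤ p := by linarith
  have hn1 : (1 : ℝ) ≤ b := by exact_mod_cast (by omega : 1 ≤ b)
  set κ : ℝ := ((b : ℝ) - 1) / 2 with hκ
  have hJm : Measurable fun v : Sp b => JJm a b L lam Lam t f v r y :=
    (meas_JJm a b L lam Lam t f hG).comp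
      (f := fun v : Sp b => (v, (y, r))) (by fun_prop)
  have hbm : Measurable fun v : Sp b => ENNReal.ofReal (bz b L (w : EE b) (v : EE b)) :=
    (meas_bz b L).comp (f := fun v : Sp b => (w, v)) (by fun_prop)
  have h1 : ‖((r ^ κ : ℝ) : ℂ) * MM (m2 a b lam Lam t) (A2 a b L (A2 a b L f)) (jm a b y (r • (w : EE b)))‖ₑ ≤
      ENNReal.ofReal C₂ * ∫⁻ v : Sp b, ENNReal.ofReal (bz b L (w : EE b) (v : EE b)) *
          JJm a b L lam Lam t f v r y ∂(sg b) := by
    rw [hRO a b L lam Lam t B r y f w ha hb hL hlam hLam hf hfs hr hLr]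
    rw [← lintegral_const_mul' _ _ ENNReal.ofReal_ne_top]
    refine (enorm_integral_le_lintegral_enorm _).trans (lintegral_mono fun v => ?_)
    refine (enorm_integral_le_lintegral_enorm _).trans ?_
    unfold JJm
    rw [← mul_assoc, ← lintegral_const_mul' _ _ (ENNReal.mul_ne_top ENNReal.ofReal_ne_top
      ENNReal.ofReal_ne_top)]
    refine lintegral_mono fun x₁ => ?_
    rw [enorm_mul, ← mul_assoc]
    unfold VVm
    refine mul_le_mul' ?_ le_rfl
    rw [← ofReal_norm, RCLike.norm_conj, ← ENNReal.ofReal_mul hC₂, ← ENNReal.ofReal_mul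
      (mul_nonneg hC₂ (bz_nonneg b L (by linarith) _ _))]
    refine ENNReal.ofReal_le_ofReal ((hKW L Lam x₁ r w v hL hLam hLr).trans (le_of_eq ?_))
    ring
  have h2 : ENNReal.ofReal (r ^ κ) *
      ‖MM (m2 a b lam Lam t) (A2 a b L (A2 a b L f)) (jm a b y (r • (w : EE b)))‖ₑ ≤
      ENNReal.ofReal C₂ * ∫⁻ v : Sp b, ENNReal.ofReal (bz b L (w : EE b) (v : EE b)) *
          JJm a b L lam Lam t f v r y ∂(sg b) := by
    refine le_trans (le_of_eq ?_) h1
    rw [enorm_mul]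
    congr 1
    rw [← ofReal_norm, Complex.norm_real, Real.norm_of_nonneg (Real.rpow_nonneg hr.le _)]
  have hra : 0 < r ^ κ := Real.rpow_pos_of_pos hr _
  have h3 : ‖MM (m2 a b lam Lam t) (A2 a b L (A2 a b L f)) (jm a b y (r • (w : EE b)))‖ₑ ≤
      ENNReal.ofReal (r ^ (-κ)) * (ENNReal.ofReal C₂ *
        ∫⁻ v : Sp b, ENNReal.ofReal (bz b L (w : EE b) (v : EE b)) *
          JJm a b L lam Lam t f v r y ∂(sg b)) := by
    refine le_trans (le_of_eq ?_) (mul_le_mul' le_rfl h2)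
    rw [← mul_assoc, ← ENNReal.ofReal_mul (Real.rpow_nonneg hr.le _), ← Real.rpow_add hr,
      neg_add_cancel, Real.rpow_zero, ENNReal.ofReal_one, one_mul]
  refine (ENNReal.rpow_le_rpow h3 hp0).trans ?_
  rw [ENNReal.mul_rpow_of_nonneg _ _ hp0, ENNReal.mul_rpow_of_nonneg _ _ hp0,
    ENNReal.ofReal_rpow_of_nonneg (Real.rpow_nonneg hr.le _) hp0, ← Real.rpow_mul hr.le,
    ENNReal.ofReal_rpow_of_nonneg hC₂ hp0]
  have h4 := jensen_w (sg b) _ _ hbm hJm p hp
  have h5 : (∫⁻ v : Sp b, ENNReal.ofReal (bz b L (w : EE b) (v : EE b)) ∂(sg b)) ^ (p - 1) ≤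
      ENNReal.ofReal (C₁ ^ (p - 1)) := by
    rw [← ENNReal.ofReal_rpow_of_nonneg hC₁ (by linarith)]
    exact ENNReal.rpow_le_rpow (hBZ L w hL) (by linarith)
  refine (mul_le_mul' le_rfl (mul_le_mul' le_rfl (h4.trans (mul_le_mul' h5 le_rfl)))).trans
    (le_of_eq ?_)
  rw [ENNReal.ofReal_mul (Real.rpow_nonneg hC₂ _), neg_mul]
  ring

/-- the main estimate -/
theorem mainm (hRO : T_ROm) (hKW : T_KW) (hBZ : T_BZ) (hGO : T_GMB) (hJM : T_JM) (a b : ℕ)
    (p : ℝ) (ha : 1 ≤ a) (hb : 2 ≤ b)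
    (hp : 1 ≤ p) : ∃ K : ℝ≥0, ∀ (L lam Lam t B : ℝ) (f : EE (a + b) → ℂ) (R : Set ℝ),
    1 ≤ L → 0 < lam → 0 < Lam → BCd B f → (∀ x, f x ≠ 0 → L ^ 2 ≤ Lam * ‖p2 a b x‖) →
    MeasurableSet R → (∀ r ∈ R, 0 < r ∧ L ^ 2 ≤ Lam * r) →
    (Measurable (fun q : Sp b × EE (a + 1) => GM a b L Lam f q.1 q.2)) ∧
    ∫⁻ x in {x : EE (a + b) | ‖p2 a b x‖ ∈ R}, ‖MM (m2 a b lam Lam t) (A2 a b L (A2 a b L f)) x‖ₑ ^ p ≤
    K * ∫⁻ v : Sp b, (∫⁻ y : EE a, ∫⁻ r in Ioi (0 : ℝ), JJm a b L lam Lam t f v r y ^ p *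
      R.indicator (fun r => ENNReal.ofReal (r ^ (-(((b : ℝ) - 1) * (p / 2 - 1))))) r)
        ∂(sg b) := by
  obtain ⟨C₁, hC₁⟩ := hBZ b hb
  obtain ⟨C₂, hC₂0, hC₂⟩ := hKW b 4 hb
  obtain ⟨C₃, hC₃0, hC₃⟩ := hGO a b ha hb
  obtain ⟨hjp, -, -, hnsq, -, hp1c, hp2c, -⟩ := hJM a b
  have hn1 : (1 : ℝ) ≤ b := by exact_mod_cast (by omega : 1 ≤ b)
  have hBZ' : ∀ (L : ℝ) (v : Sp b), 1 ≤ L →
      ∫⁻ w : Sp b, ENNReal.ofReal (bz b L v w) ∂(sg b) ≤ ENNReal.ofReal (C₁ : ℝ) := by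
    intro L v hL
    rw [ENNReal.ofReal_coe_nnreal]
    exact hC₁ L v hL
  refine ⟨(C₂ ^ p * (C₁ : ℝ) ^ (p - 1)).toNNReal * C₁, ?_⟩
  intro L lam Lam t B f R hL hlam hLam hf hfs hR hRp
  have hG : Measurable (fun q : Sp b × EE (a + 1) => GM a b L Lam f q.1 q.2) := by
    obtain ⟨hfm, hfB, R', hR'⟩ := hf
    have hA : ∀ x : EE (a + b), ‖p2 a b x‖ ^ (((b : ℝ) - 1) / 2) * ‖f x‖ ≤
        |R'| ^ (((b : ℝ) - 1) / 2) * |B| := by
      intro x
      by_cases hx : f x = 0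
      · rw [hx, norm_zero, mul_zero]
        positivity
      · have h1 : ‖x‖ ≤ R' := by
          by_contra hc
          push Not at hc
          exact hx (hR' x hc)
        refine mul_le_mul ?_ ((hfB x).trans (le_abs_self B)) (norm_nonneg _) (by positivity)
        have h2 : ‖p2 a b x‖ ≤ ‖x‖ := by
          have h3 := hnsq x
          nlinarith [norm_nonneg (p2 a b x), norm_nonneg x, sq_nonneg ‖p1 a b x‖]
        exact Real.rpow_le_rpow (norm_nonneg _)
          (h2.trans (h1.trans (le_abs_self R'))) (by linarith)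
    exact (hC₃ L Lam _ B f hL hLam ⟨hfm, hfB, R', hR'⟩ hfs hA).1
  refine ⟨hG, ?_⟩
  have hpt := ptwm hRO a b p C₁ C₂ ha hb hp C₁.2 hC₂0 (fun L Lam x r v w h1 h2 h3 =>
    (hC₂ L Lam x r v w h1 h2 h3).2) hBZ' L lam Lam t B f hL hlam hLam hf hfs hG
  set u : EE (a + b) → ℝ≥0∞ := fun x =>
    ‖MM (m2 a b lam Lam t) (A2 a b L (A2 a b L f)) x‖ₑ ^ p with hu
  have hum : Measurable u := ((meas_MM _ _ (meas_m2 hJM a b lam Lam t)
    (meas_A2 hJM a b L _ (meas_A2 hJM a b L f hf.1))).enorm).pow_const p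
  have hS : MeasurableSet {x : EE (a + b) | ‖p2 a b x‖ ∈ R} := hp2c.norm.measurable hR
  set W : ℝ → ℝ≥0∞ :=
    R.indicator (fun r => ENNReal.ofReal (r ^ (-(((b : ℝ) - 1) * (p / 2 - 1))))) with hW
  have hWm : Measurable W := by
    refine Measurable.indicator ?_ hR
    fun_prop
  set K₀ : ℝ≥0∞ := ENNReal.ofReal (C₂ ^ p * (C₁ : ℝ) ^ (p - 1)) with hK₀
  have hcoe : (((C₂ ^ p * (C₁ : ℝ) ^ (p - 1)).toNNReal * C₁ : ℝ≥0) : ℝ≥0∞) = K₀ * C₁ := by
    rw [ENNReal.coe_mul]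
    rfl
  rw [hcoe]
  have hbw : ∀ w : Sp b, Measurable fun v : Sp b =>
      ENNReal.ofReal (bz b L (w : EE b) (v : EE b)) := fun w =>
    (meas_bz b L).comp (f := fun v : Sp b => (w, v)) (by fun_prop)
  have hJm := meas_JJm a b L lam Lam t f hG
  set M : Measure (EE a × ℝ) := (volume : Measure (EE a)).prod (volume.restrict (Ioi (0 : ℝ))) with hM
  have hH : Measurable fun q : Sp b × (EE a × ℝ) => JJm a b L lam Lam t f q.1 q.2.2 q.2.1 ^ p * W q.2.2 :=
    (hJm.pow_const p).mul (hWm.comp (f := fun q : Sp b × (EE a × ℝ) => q.2.2) (by fun_prop))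
  have hΨ : ∀ v : Sp b, (∫⁻ y : EE a, ∫⁻ r in Ioi (0 : ℝ), JJm a b L lam Lam t f v r y ^ p * W r) =
      ∫⁻ q, JJm a b L lam Lam t f v q.2 q.1 ^ p * W q.2 ∂M := by
    intro v
    have h1 : Measurable fun q : EE a × ℝ => JJm a b L lam Lam t f v q.2 q.1 ^ p * W q.2 :=
      hH.comp (f := fun q : EE a × ℝ => (v, q)) (by fun_prop)
    rw [hM, lintegral_prod _ h1.aemeasurable]
  have hΨm : Measurable fun v : Sp b =>
      ∫⁻ q, JJm a b L lam Lam t f v q.2 q.1 ^ p * W q.2 ∂M := hH.lintegral_prod_right'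
  calc ∫⁻ x in {x : EE (a + b) | ‖p2 a b x‖ ∈ R}, u x
      = ∫⁻ x, {x : EE (a + b) | ‖p2 a b x‖ ∈ R}.indicator u x := (lintegral_indicator hS _).symm
    _ = ∫⁻ w : Sp b, (∫⁻ y : EE a, ∫⁻ r in Ioi (0 : ℝ), ENNReal.ofReal (r ^ (b - 1)) *
          {x : EE (a + b) | ‖p2 a b x‖ ∈ R}.indicator u (jm a b y (r • (w : EE b)))) ∂(sg b) :=
        lint_cylm hJM a b (by omega) _ (hum.indicator hS)
    _ ≤ ∫⁻ w : Sp b, (∫⁻ y : EE a, ∫⁻ r in Ioi (0 : ℝ), K₀ * ∫⁻ v : Sp b,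
          ENNReal.ofReal (bz b L (w : EE b) (v : EE b)) *
            (JJm a b L lam Lam t f v r y ^ p * W r) ∂(sg b)) ∂(sg b) := by
        refine lintegral_mono fun w => lintegral_mono fun y => ?_
        refine setLIntegral_mono' measurableSet_Ioi fun r hr => ?_
        have hr0 : 0 < r := hr
        have hhor : ‖p2 a b (jm a b y (r • (w : EE b)))‖ = r := by
          rw [(hjp _ _).2, norm_smul, norm_sp, mul_one, Real.norm_of_nonneg hr0.le]
        by_cases hrR : r ∈ R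
        · have h1 : jm a b y (r • (w : EE b)) ∈ {x : EE (a + b) | ‖p2 a b x‖ ∈ R} := by
            show ‖p2 a b (jm a b y (r • (w : EE b)))‖ ∈ R
            rw [hhor]
            exact hrR
          rw [indicator_of_mem h1]
          refine (mul_le_mul' le_rfl (hpt w r y hr0 (hRp r hrR).2)).trans (le_of_eq ?_)
          have h2 : W r = ENNReal.ofReal (r ^ (-(((b : ℝ) - 1) * (p / 2 - 1)))) :=
            indicator_of_mem hrR _
          have h3 : ENNReal.ofReal (r ^ (b - 1)) *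
              ENNReal.ofReal (r ^ (-(((b : ℝ) - 1) / 2 * p))) = W r := by
            rw [h2, ← ENNReal.ofReal_mul (by positivity), ← Real.rpow_natCast,
              ← Real.rpow_add hr0]
            congr 2
            rw [Nat.cast_sub (by omega)]
            push_cast
            ring
          have h4 : ∀ v : Sp b, ENNReal.ofReal (bz b L (w : EE b) (v : EE b)) *
              (JJm a b L lam Lam t f v r y ^ p * W r) =
              W r * (ENNReal.ofReal (bz b L (w : EE b) (v : EE b)) *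
                JJm a b L lam Lam t f v r y ^ p) := by
            intro v
            ring
          simp_rw [h4]
          rw [lintegral_const_mul' _ _ (by rw [h2]; exact ENNReal.ofReal_ne_top), ← h3]
          ring
        · have h1 : jm a b y (r • (w : EE b)) ∉ {x : EE (a + b) | ‖p2 a b x‖ ∈ R} := by
            show ¬ (‖p2 a b (jm a b y (r • (w : EE b)))‖ ∈ R)
            rw [hhor]
            exact hrR
          rw [indicator_of_notMem h1, mul_zero]
          exact zero_le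
    _ = ∫⁻ w : Sp b, (K₀ * ∫⁻ v : Sp b, ENNReal.ofReal (bz b L (w : EE b) (v : EE b)) *
          (∫⁻ q, JJm a b L lam Lam t f v q.2 q.1 ^ p * W q.2 ∂M) ∂(sg b)) ∂(sg b) := by
        refine lintegral_congr fun w => ?_
        have h1 : Measurable fun q : (EE a × ℝ) × Sp b =>
            ENNReal.ofReal (bz b L (w : EE b) (q.2 : EE b)) *
              (JJm a b L lam Lam t f q.2 q.1.2 q.1.1 ^ p * W q.1.2) := by
          refine Measurable.mul ?_ ?_
          · exact (hbw w).comp measurable_snd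
          · exact hH.comp (f := fun q : (EE a × ℝ) × Sp b => (q.2, q.1)) (by fun_prop)
        have h2 : Measurable fun q : EE a × ℝ => ∫⁻ v : Sp b,
            ENNReal.ofReal (bz b L (w : EE b) (v : EE b)) *
              (JJm a b L lam Lam t f v q.2 q.1 ^ p * W q.2) ∂(sg b) := h1.lintegral_prod_right'
        have h3 : (∫⁻ y : EE a, ∫⁻ r in Ioi (0 : ℝ), K₀ * ∫⁻ v : Sp b,
            ENNReal.ofReal (bz b L (w : EE b) (v : EE b)) *
              (JJm a b L lam Lam t f v r y ^ p * W r) ∂(sg b)) =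
            ∫⁻ q, K₀ * ∫⁻ v : Sp b, ENNReal.ofReal (bz b L (w : EE b) (v : EE b)) *
              (JJm a b L lam Lam t f v q.2 q.1 ^ p * W q.2) ∂(sg b) ∂M := by
          rw [hM, lintegral_prod _ (h2.const_mul K₀).aemeasurable]
        rw [h3, lintegral_const_mul _ h2]
        congr 1
        rw [lintegral_lintegral_swap (f := fun (q : EE a × ℝ) (v : Sp b) =>
          ENNReal.ofReal (bz b L (w : EE b) (v : EE b)) *
              (JJm a b L lam Lam t f v q.2 q.1 ^ p * W q.2)) h1.aemeasurable]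
        refine lintegral_congr fun v => ?_
        rw [lintegral_const_mul' _ _ ENNReal.ofReal_ne_top]
    _ = K₀ * ∫⁻ w : Sp b, (∫⁻ v : Sp b, ENNReal.ofReal (bz b L (w : EE b) (v : EE b)) *
          (∫⁻ q, JJm a b L lam Lam t f v q.2 q.1 ^ p * W q.2 ∂M) ∂(sg b)) ∂(sg b) :=
        lintegral_const_mul' _ _ ENNReal.ofReal_ne_top
    _ = K₀ * ∫⁻ v : Sp b, (∫⁻ w : Sp b, ENNReal.ofReal (bz b L (w : EE b) (v : EE b)) *
          (∫⁻ q, JJm a b L lam Lam t f v q.2 q.1 ^ p * W q.2 ∂M) ∂(sg b)) ∂(sg b) := by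
        congr 1
        refine lintegral_lintegral_swap (f := fun (w v : Sp b) =>
          ENNReal.ofReal (bz b L (w : EE b) (v : EE b)) *
          (∫⁻ q, JJm a b L lam Lam t f v q.2 q.1 ^ p * W q.2 ∂M)) ?_
        exact ((meas_bz b L).mul (hΨm.comp measurable_snd)).aemeasurable
    _ ≤ K₀ * ∫⁻ v : Sp b, (C₁ : ℝ≥0∞) *
          (∫⁻ q, JJm a b L lam Lam t f v q.2 q.1 ^ p * W q.2 ∂M) ∂(sg b) := by
        refine mul_le_mul' le_rfl (lintegral_mono fun v => ?_)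
        have h1 : Measurable fun w : Sp b => ENNReal.ofReal (bz b L (w : EE b) (v : EE b)) :=
          (meas_bz b L).comp (f := fun w : Sp b => (w, v)) (by fun_prop)
        rw [lintegral_mul_const _ h1]
        refine mul_le_mul' ?_ le_rfl
        simp_rw [bz_symm b L _ (v : EE b)]
        exact hC₁ L v hL
    _ = K₀ * C₁ * ∫⁻ v : Sp b, (∫⁻ y : EE a, ∫⁻ r in Ioi (0 : ℝ),
          JJm a b L lam Lam t f v r y ^ p * W r) ∂(sg b) := by
        rw [lintegral_const_mul' _ _ ENNReal.coe_ne_top, mul_assoc]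
        congr 2
        refine lintegral_congr fun v => ?_
        rw [hΨ v]

/-- module PAm -/
theorem pf_pam (hRO : T_ROm) (hKW : T_KW) (hBZ : T_BZ) (hWR : T_WRED) (hGMB : T_GMB)
    (hJM : T_JM) : T_PAm := by
  intro a b p ha hb hp hβ1 hβ0
  obtain ⟨K, hK⟩ := mainm hRO hKW hBZ hGMB hJM a b p ha hb hp
  obtain ⟨D₁, hD₁⟩ := hWR p (((b : ℝ) - 1) * (p / 2 - 1)) hp hβ0 hβ1
  obtain ⟨D₂, hD₂⟩ := hWR p 0 hp le_rfl one_pos
  refine ⟨K * (D₁ + D₂), ?_⟩
  intro L lam Lam t B f R hL hlam hLam hf hfs hR hRp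
  obtain ⟨hG, hmain⟩ := hK L lam Lam t B f R hL hlam hLam hf hfs hR hRp
  have hV : ∀ v : Sp b, Measurable fun X : EE (a + 1) => VVm a b L lam Lam t f v X := fun v =>
    (meas_VVm a b L lam Lam t f hG).comp (f := fun X : EE (a + 1) => (v, X)) (by fun_prop)
  have hVy : ∀ (v : Sp b) (y : EE a), Measurable fun x₁ : ℝ =>
      VVm a b L lam Lam t f v (jo y x₁) := fun v y =>
    (hV v).comp (continuous_jo.measurable.comp (f := fun x₁ : ℝ => (y, x₁)) (by fun_prop))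
  have hjo : ∀ (v : Sp b) (g : ℝ → ℝ≥0∞), Measurable g →
      ∫⁻ y : EE a, ∫⁻ x₁ : ℝ, VVm a b L lam Lam t f v (jo y x₁) ^ p * g x₁ =
      ∫⁻ X : EE (a + 1), VVm a b L lam Lam t f v X ^ p * g (X (Fin.last a)) := by
    intro v g hg
    have hlast : Measurable fun X : EE (a + 1) => X (Fin.last a) := by fun_prop
    have h1 : Measurable fun X : EE (a + 1) =>
        VVm a b L lam Lam t f v X ^ p * g (X (Fin.last a)) :=
      ((hV v).pow_const p).mul (hg.comp hlast)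
    have h2 : Measurable fun q : EE a × ℝ =>
        VVm a b L lam Lam t f v (jo q.1 q.2) ^ p * g ((jo q.1 q.2) (Fin.last a)) :=
      h1.comp continuous_jo.measurable
    rw [← (mp_jo a).lintegral_comp h1, lintegral_prod _ h2.aemeasurable]
    refine lintegral_congr fun y => lintegral_congr fun x₁ => ?_
    show _ = VVm a b L lam Lam t f v (jo y x₁) ^ p * g ((jo y x₁) (Fin.last a))
    rw [jo_last]
  refine ⟨?_, ?_⟩
  · refine hmain.trans ?_
    rw [ENNReal.coe_mul, mul_assoc]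
    refine mul_le_mul' le_rfl ?_
    calc ∫⁻ v : Sp b, (∫⁻ y : EE a, ∫⁻ r in Ioi (0 : ℝ), JJm a b L lam Lam t f v r y ^ p *
      R.indicator (fun r => ENNReal.ofReal (r ^ (-(((b : ℝ) - 1) * (p / 2 - 1))))) r) ∂(sg b)
        ≤ ∫⁻ v : Sp b, (D₁ : ℝ≥0∞) * (∫⁻ X : EE (a + 1), VVm a b L lam Lam t f v X ^ p *
            ENNReal.ofReal ((|X (Fin.last a)| + 1 / Lam) ^ (-(((b : ℝ) - 1) * (p / 2 - 1)))))
              ∂(sg b) := by
          refine lintegral_mono fun v => ?_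
          show (∫⁻ y : EE a, ∫⁻ r in Ioi (0 : ℝ), JJm a b L lam Lam t f v r y ^ p *
            R.indicator (fun r => ENNReal.ofReal (r ^ (-(((b : ℝ) - 1) * (p / 2 - 1))))) r) ≤ _
          rw [← hjo v (fun x₁ => ENNReal.ofReal
            ((|x₁| + 1 / Lam) ^ (-(((b : ℝ) - 1) * (p / 2 - 1)))))
            (ENNReal.measurable_ofReal.comp (by fun_prop)),
            ← lintegral_const_mul' _ _ ENNReal.coe_ne_top]
          refine lintegral_mono fun y => ?_
          refine le_trans ?_ (wred1 p _ D₁ hp hD₁ Lam _ hLam (hVy v y))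
          refine lintegral_mono fun r => ?_
          unfold JJm
          refine mul_le_mul' le_rfl ?_
          exact indicator_le_self' (fun _ _ => zero_le) r
      _ ≤ _ := by
          rw [lintegral_const_mul' _ _ ENNReal.coe_ne_top]
          refine mul_le_mul' ?_ le_rfl
          rw [ENNReal.coe_add]
          exact le_self_add
  · intro D hD hRD
    refine hmain.trans ?_
    rw [ENNReal.coe_mul, mul_assoc, mul_assoc]
    refine mul_le_mul' le_rfl ?_
    calc ∫⁻ v : Sp b, (∫⁻ y : EE a, ∫⁻ r in Ioi (0 : ℝ), JJm a b L lam Lam t f v r y ^ p *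
      R.indicator (fun r => ENNReal.ofReal (r ^ (-(((b : ℝ) - 1) * (p / 2 - 1))))) r) ∂(sg b)
        ≤ ∫⁻ v : Sp b, (ENNReal.ofReal (D ^ (-(((b : ℝ) - 1) * (p / 2 - 1)))) * D₂) *
            (∫⁻ X : EE (a + 1), VVm a b L lam Lam t f v X ^ p) ∂(sg b) := by
          refine lintegral_mono fun v => ?_
          show (∫⁻ y : EE a, ∫⁻ r in Ioi (0 : ℝ), JJm a b L lam Lam t f v r y ^ p *
            R.indicator (fun r => ENNReal.ofReal (r ^ (-(((b : ℝ) - 1) * (p / 2 - 1))))) r) ≤ _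
          have hjo1 := hjo v (fun _ => 1) measurable_const
          simp only [mul_one] at hjo1
          rw [← hjo1, mul_assoc, ← lintegral_const_mul' _ _ ENNReal.coe_ne_top,
            ← lintegral_const_mul' _ _ ENNReal.ofReal_ne_top]
          refine lintegral_mono fun y => ?_
          have h1 := wred1 p 0 D₂ hp hD₂ Lam _ hLam (hVy v y)
          simp only [neg_zero, Real.rpow_zero, ENNReal.ofReal_one, mul_one] at h1
          refine le_trans ?_ (mul_le_mul' le_rfl h1)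
          rw [← lintegral_const_mul' _ _ ENNReal.ofReal_ne_top]
          refine lintegral_mono fun r => ?_
          show JJm a b L lam Lam t f v r y ^ p * _ ≤ _ * JJm a b L lam Lam t f v r y ^ p
          rw [mul_comm]
          refine mul_le_mul' ?_ le_rfl
          by_cases hr : r ∈ R
          · rw [indicator_of_mem hr]
            refine ENNReal.ofReal_le_ofReal ?_
            exact Real.rpow_le_rpow_of_nonpos hD (hRD r hr) (by linarith)
          · rw [indicator_of_notMem hr]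
            exact zero_le
      _ ≤ _ := by
          rw [lintegral_const_mul' _ _ (ENNReal.mul_ne_top ENNReal.ofReal_ne_top
            ENNReal.coe_ne_top), ← mul_assoc]
          refine mul_le_mul' ?_ le_rfl
          rw [mul_comm, ENNReal.coe_add]
          exact mul_le_mul' le_add_self le_rfl

end Pool.Agent.H42.BR
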